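import Mathlib

namespace Pool.Agent.V132.SS

open Finset

/-! ### The triples -/

/-- The triples `p ≤ q ≤ r` for which the semistar `K_1(p, q, r)` is RP. -/
def TP (p q r : ℕ) : Prop :=
  (p = 1 ∧ q = 1 ∧ r % 2 = 0) ∨ (p = 1 ∧ q = 2 ∧ 3 ≤ r ∧ r % 3 ≠ 2) ∨
    (p = 1 ∧ q = 3 ∧ 4 ≤ r ∧ r % 2 = 0) ∨
    (p = 1 ∧ q = 4 ∧ (r = 5 ∨ r = 6 ∨ r = 8 ∨ r = 10 ∨ r = 13 ∨ r = 18)) ∨
    (p = 1 ∧ q = 5 ∧ r = 6) ∨ (p = 1 ∧ q = 6 ∧ (r = 7 ∨ r = 8 ∨ r = 10 ∨ r = 12 ∨ r = 14)) ∨
    (p = 2 ∧ q = 4 ∧ r = 6)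

instance (p q r : ℕ) : Decidable (TP p q r) := by unfold TP; infer_instance

def Tt (p q r : ℕ) : Bool :=
  match p with
  | 1 => match q with
    | 1 => r % 2 == 0
    | 2 => Nat.ble 3 r && (r % 3 != 2)
    | 3 => Nat.ble 4 r && (r % 2 == 0)
    | 4 => r == 5 || r == 6 || r == 8 || r == 10 || r == 13 || r == 18
    | 5 => r == 6
    | 6 => r == 7 || r == 8 || r == 10 || r == 12 || r == 14
    | _ => false
  | 2 => q == 4 && r == 6
  | _ => false

lemma Tt_of_TP {p q r : ℕ} (h : TP p q r) : Tt p q r = true := by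
  rcases h with ⟨rfl, rfl, h⟩ | ⟨rfl, rfl, h, h'⟩ | ⟨rfl, rfl, h, h'⟩ | ⟨rfl, rfl, h⟩ |
    ⟨rfl, rfl, h⟩ | ⟨rfl, rfl, h⟩ | ⟨rfl, rfl, h⟩ <;> simp_all [Tt] <;> omega

/-- `TP` for some order of the arguments. -/
def TS (p q r : ℕ) : Prop :=
  TP p q r ∨ TP p r q ∨ TP q p r ∨ TP q r p ∨ TP r p q ∨ TP r q p

instance (p q r : ℕ) : Decidable (TS p q r) := by unfold TS; infer_instance

/-- The condition on a triple coming from one piece of size `a`. -/
def cov1 (x y z a : ℕ) : Prop :=
  ∃ r, (r = a ∨ r + a = 1 + x + y + z) ∧ ((r = x ∨ r = y ∨ r = z) ∨ (r < x ∧ TS (x - r) y z) ∨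
    (r < y ∧ TS x (y - r) z) ∨ (r < z ∧ TS x y (z - r)))

def cov1b (x y z a : ℕ) : Bool :=
  [a, 1 + x + y + z - a].any fun r => r == x || r == y || r == z ||
    (Nat.blt r x && decide (TS (x - r) y z)) || (Nat.blt r y && decide (TS x (y - r) z)) ||
    (Nat.blt r z && decide (TS x y (z - r)))

lemma cov1b_of {x y z a : ℕ} (h : cov1 x y z a) : cov1b x y z a = true := by
  obtain ⟨r, hr, h⟩ := h
  unfold cov1b
  rw [List.any_eq_true]
  refine ⟨r, ?_, ?_⟩
  · rcases hr with rfl | hr
    · simp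
    · have : r = 1 + x + y + z - a := by omega
      simp [this]
  · rcases h with (h | h | h) | ⟨h, h'⟩ | ⟨h, h'⟩ | ⟨h, h'⟩ <;> simp [*]

lemma TP_mid {p q r : ℕ} (h : TP p q r) : p ≤ 2 ∧ q ≤ 6 := by
  rcases h with h | h | h | h | h | h | h <;> omega

lemma TP_big {p q r : ℕ} (hr : 23 ≤ r) (h : TP p q r) :
    (p = 1 ∧ q = 1 ∧ r % 2 = 0) ∨ (p = 1 ∧ q = 2 ∧ r % 3 ≠ 2) ∨ (p = 1 ∧ q = 3 ∧ r % 2 = 0) := by
  rcases h with h | h | h | h | h | h | h
  · left; exact h
  · right; left; exact ⟨h.1, h.2.1, h.2.2.2⟩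
  · right; right; exact ⟨h.1, h.2.1, h.2.2.2⟩
  all_goals omega

lemma TS_big {p q r : ℕ} (hr : 23 ≤ r) (h : TS p q r) :
    (p = 1 ∧ q = 1 ∧ r % 2 = 0) ∨ (p = 1 ∧ q = 2 ∧ r % 3 ≠ 2) ∨ (p = 2 ∧ q = 1 ∧ r % 3 ≠ 2) ∨
      (p = 1 ∧ q = 3 ∧ r % 2 = 0) ∨ (p = 3 ∧ q = 1 ∧ r % 2 = 0) := by
  rcases h with h | h | h | h | h | h
  · rcases TP_big hr h with h | h | h <;> omega
  · have := TP_mid h; omega
  · rcases TP_big hr h with h | h | h <;> omega
  · have := TP_mid h; omega
  · have := TP_mid h; omega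
  · have := TP_mid h; omega

lemma tri_big {x y z : ℕ} (hx : 1 ≤ x) (hxy : x ≤ y) (hyz : y ≤ z) (hz : 31 ≤ z)
    (h : ∀ a, 1 ≤ a → 2 * a ≤ 1 + x + y + z → cov1 x y z a) : TP x y z := by
  have key : ∀ a, 1 ≤ a → 2 * a ≤ 1 + x + y + z → a < 1 + x + y →
      ((a = x ∨ a = y ∨ a = z) ∨ (a < x ∧ TS (x - a) y z) ∨
    (a < y ∧ TS x (y - a) z) ∨ (a < z ∧ TS x y (z - a))) := by
    intro a h1 h2 h3
    obtain ⟨r, hr | hr, h4⟩ := h a h1 h2
    · subst hr; exact h4
    · exfalso
      rcases h4 with (h4 | h4 | h4) | ⟨h4, _⟩ | ⟨h4, _⟩ | ⟨h4, _⟩ <;> omega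
  rcases Nat.lt_or_ge x 3 with hx3 | hx3
  · obtain rfl | rfl : x = 1 ∨ x = 2 := by omega
    · rcases Nat.lt_or_ge y 7 with hy7 | hy7
      · obtain rfl | rfl | rfl | rfl | rfl | rfl : y = 1 ∨ y = 2 ∨ y = 3 ∨ y = 4 ∨ y = 5 ∨ y = 6 :=
          by omega
        · rcases Nat.mod_two_eq_zero_or_one z with hz2 | hz2
          · left; exact ⟨rfl, rfl, hz2⟩
          · exfalso
            rcases key 2 (by omega) (by omega) (by omega) with h4 | ⟨h4, _⟩ | ⟨h4, _⟩ | ⟨h4, h5⟩
            · omega
            · omega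
            · omega
            · have := TS_big (by omega) h5
              omega
        · by_cases hz3 : z % 3 = 2
          · exfalso
            rcases key 3 (by omega) (by omega) (by omega) with h4 | ⟨h4, _⟩ | ⟨h4, _⟩ | ⟨h4, h5⟩
            · omega
            · omega
            · omega
            · have := TS_big (by omega) h5
              omega
          · right; left; exact ⟨rfl, rfl, by omega, hz3⟩
        · rcases Nat.mod_two_eq_zero_or_one z with hz2 | hz2
          · right; right; left; exact ⟨rfl, rfl, by omega, hz2⟩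
          · exfalso
            rcases key 2 (by omega) (by omega) (by omega) with h4 | ⟨h4, _⟩ | ⟨h4, h5⟩ | ⟨h4, h5⟩
            · omega
            · omega
            · have := TS_big (by omega) h5
              omega
            · have := TS_big (by omega) h5
              omega
        · exfalso
          rcases key 5 (by omega) (by omega) (by omega) with h4 | ⟨h4, _⟩ | ⟨h4, _⟩ | ⟨h4, h5⟩
          · omega
          · omega
          · omega
          · have := TS_big (by omega) h5
            omega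
        · exfalso
          rcases key 6 (by omega) (by omega) (by omega) with h4 | ⟨h4, _⟩ | ⟨h4, _⟩ | ⟨h4, h5⟩
          · omega
          · omega
          · omega
          · have := TS_big (by omega) h5
            omega
        · exfalso
          rcases key 7 (by omega) (by omega) (by omega) with h4 | ⟨h4, _⟩ | ⟨h4, _⟩ | ⟨h4, h5⟩
          · omega
          · omega
          · omega
          · have := TS_big (by omega) h5
            omega
      · exfalso
        rcases key 2 (by omega) (by omega) (by omega) with h4 | ⟨h4, _⟩ | ⟨h4, h5⟩ | ⟨h4, h5⟩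
        · omega
        · omega
        · have := TS_big (by omega) h5
          omega
        · have := TS_big (by omega) h5
          omega
    · exfalso
      have hy : y = 2 ∨ y = 3 := by
        rcases key 1 (by omega) (by omega) (by omega) with h4 | ⟨h4, h5⟩ | ⟨h4, h5⟩ | ⟨h4, h5⟩
        · omega
        · have := TS_big (by omega) h5
          omega
        · have := TS_big (by omega) h5
          omega
        · have := TS_big (by omega) h5
          omega
      rcases hy with rfl | rfl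
      · rcases key 3 (by omega) (by omega) (by omega) with h4 | ⟨h4, h5⟩ | ⟨h4, h5⟩ | ⟨h4, h5⟩
        · omega
        · omega
        · omega
        · have := TS_big (by omega) h5
          omega
      · rcases key 4 (by omega) (by omega) (by omega) with h4 | ⟨h4, h5⟩ | ⟨h4, h5⟩ | ⟨h4, h5⟩
        · omega
        · omega
        · omega
        · have := TS_big (by omega) h5
          omega
  · exfalso
    rcases key 1 (by omega) (by omega) (by omega) with h4 | ⟨h4, h5⟩ | ⟨h4, h5⟩ | ⟨h4, h5⟩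
    · omega
    · have := TS_big (by omega) h5
      omega
    · have := TS_big (by omega) h5
      omega
    · have := TS_big (by omega) h5
      omega

def triChk : Bool :=
  (List.range 31).all fun z => (List.range (z + 1)).all fun y => (List.range (y + 1)).all fun x =>
    x == 0 || decide (TP x y z) ||
      (List.range 18).any fun a => Nat.ble 1 a && Nat.ble (2 * a) (1 + x + y + z) && !cov1b x y z a

set_option maxRecDepth 100000 in
lemma triChk_true : triChk = true := by decide +kernel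

lemma tri_arith {x y z : ℕ} (hx : 1 ≤ x) (hxy : x ≤ y) (hyz : y ≤ z)
    (h : ∀ a, 1 ≤ a → 2 * a ≤ 1 + x + y + z → cov1 x y z a) : TP x y z := by
  by_cases hz : 31 ≤ z
  · exact tri_big hx hxy hyz hz h
  · have h1 := triChk_true
    unfold triChk at h1
    rw [List.all_eq_true] at h1
    have h2 := h1 z (by simp; omega)
    rw [List.all_eq_true] at h2
    have h3 := h2 y (by simp; omega)
    rw [List.all_eq_true] at h3
    have h4 := h3 x (by simp; omega)
    rw [Bool.or_eq_true, Bool.or_eq_true] at h4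
    rcases h4 with (h4 | h4) | h4
    · simp at h4; omega
    · exact of_decide_eq_true h4
    · exfalso
      rw [List.any_eq_true] at h4
      obtain ⟨a, _, h5⟩ := h4
      simp only [Bool.and_eq_true, Nat.ble_eq, Bool.not_eq_true'] at h5
      have := cov1b_of (h a h5.1.1 h5.1.2)
      rw [this] at h5
      exact absurd h5.2 (by decide)

end Pool.Agent.V132.SS
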