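import Pool.Agent.V132.SS.A1

namespace Pool.Agent.V132.SS

open Finset

/-! ### The survivors -/

/-- The branch lists (with the sum of their entries) that pass the necessary conditions. -/
def SL : List (ℕ × List ℕ) :=
  [(19, [1, 1, 1, 1, 2, 3, 4, 6]),
   (20, [1, 1, 1, 2, 2, 3, 4, 6]),
   (21, [1, 1, 1, 2, 3, 3, 4, 6]),
   (21, [1, 1, 2, 2, 2, 3, 4, 6]),
   (22, [1, 1, 1, 2, 3, 4, 4, 6]),
   (22, [1, 1, 2, 2, 3, 3, 4, 6]),
   (23, [1, 1, 1, 2, 3, 4, 5, 6]),
   (23, [1, 1, 2, 2, 3, 4, 4, 6]),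
   (23, [1, 1, 2, 3, 3, 3, 4, 6]),
   (24, [1, 1, 1, 2, 3, 4, 6, 6]),
   (24, [1, 1, 2, 2, 3, 4, 5, 6]),
   (24, [1, 1, 2, 3, 3, 4, 4, 6]),
   (26, [1, 1, 1, 2, 3, 4, 6, 8]),
   (26, [1, 1, 2, 2, 3, 4, 6, 7]),
   (28, [1, 1, 1, 2, 3, 4, 6, 10]),
   (28, [1, 1, 2, 3, 3, 4, 6, 8]),
   (29, [1, 1, 2, 2, 3, 4, 6, 10]),
   (30, [1, 1, 2, 3, 3, 4, 6, 10]),
   (31, [1, 1, 2, 2, 3, 4, 6, 12]),
   (32, [1, 1, 2, 3, 4, 5, 6, 10]),
   (34, [1, 1, 1, 2, 3, 4, 6, 16]),
   (35, [1, 1, 2, 2, 3, 4, 6, 16]),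
   (38, [1, 1, 1, 2, 3, 4, 6, 20]),
   (38, [1, 1, 2, 3, 3, 4, 6, 18])]

lemma SL_sum : ∀ s ∈ SL, s.2.sum = s.1 ∧ s.1 ≤ 38 ∧ 19 ≤ s.1 := by decide

/-- The set of survivors. -/
def Surv (M : Multiset ℕ) : Prop := ∃ s ∈ SL, M = ↑s.2

lemma Surv.sum {M : Multiset ℕ} (h : Surv M) : M.sum ≤ 38 ∧ 19 ≤ M.sum := by
  obtain ⟨s, hs, rfl⟩ := h
  have := SL_sum s hs
  rw [Multiset.sum_coe]
  omega

/-- membership in the survivors, for a list with sum `n` -/
def memS (n : ℕ) (l : List ℕ) : Bool :=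
  SL.any fun s => Nat.beq s.1 n && l.isPerm s.2

lemma memS_of {l : List ℕ} (h : Surv ↑l) : memS l.sum l = true := by
  obtain ⟨s, hs, h⟩ := h
  have h2 := SL_sum s hs
  have h3 : l.sum = s.1 := by
    rw [← h2.1, ← Multiset.sum_coe, ← Multiset.sum_coe, h]
  unfold memS
  simp only [List.any_eq_true]
  refine ⟨s, hs, ?_⟩
  rw [Bool.and_eq_true]
  refine ⟨by rw [h3, Nat.beq_eq], ?_⟩
  rw [List.isPerm_iff]
  exact Multiset.coe_eq_coe.1 h

lemma of_memS {n : ℕ} {l : List ℕ} (h : memS n l = true) : Surv ↑l := by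
  unfold memS at h
  simp only [List.any_eq_true, Bool.and_eq_true] at h
  obtain ⟨s, hs, _, h⟩ := h
  exact ⟨s, hs, Multiset.coe_eq_coe.2 (List.isPerm_iff.1 h)⟩

/-- The necessary condition for the size `a` on the multiset `M` of branch sizes of a `(3,8)` RP
semistar. -/
def covM (M : Multiset ℕ) (a : ℕ) : Prop :=
  (∃ x ∈ M, ∃ r, (r = a ∨ r + a = 3 + M.sum) ∧ r < x ∧ Surv ((x - r) ::ₘ M.erase x)) ∨
  (∃ r ∈ M, r = a ∨ r + a = 3 + M.sum) ∨
  (∃ p q r, p ≤ q ∧ q ≤ r ∧ {p, q, r} ≤ M ∧ TP p q r ∧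
    (1 + p + q + r = a ∨ 1 + p + q + r + a = 3 + M.sum))

/-! Fast Boolean functions -/

noncomputable def anyR (l : List ℕ) (f : ℕ → Bool) : Bool :=
  List.rec (motive := fun _ => Bool) false
    (fun x _ ih => Bool.rec (motive := fun _ => Bool) ih true (f x)) l

lemma anyR_eq (l : List ℕ) (f : ℕ → Bool) : anyR l f = l.any f := by
  induction l with
  | nil => rfl
  | cons x l ih =>
    show Bool.rec (motive := fun _ => Bool) (anyR l f) true (f x) = _
    rw [ih]
    cases h : f x <;> simp [h]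

noncomputable def memL (x : ℕ) (l : List ℕ) : Bool := anyR l (fun y => Nat.beq y x)

lemma memL_of {x : ℕ} {l : List ℕ} (h : x ∈ l) : memL x l = true := by
  unfold memL
  rw [anyR_eq, List.any_eq_true]
  exact ⟨x, h, by simp⟩

/-- `1` occurs twice -/
noncomputable def two1 (l : List ℕ) : Bool :=
  List.rec (motive := fun _ => Bool) false
    (fun x t ih => Bool.rec (motive := fun _ => Bool) ih (memL 1 t) (Nat.beq x 1)) l

lemma two1_of {l : List ℕ} (h : 2 ≤ l.count 1) : two1 l = true := by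
  induction l with
  | nil => simp at h
  | cons x l ih =>
    show Bool.rec (motive := fun _ => Bool) (two1 l) (memL 1 l) (Nat.beq x 1) = _
    by_cases hx : x = 1
    · subst hx
      have : 1 ∈ l := by
        rw [List.count_cons_self] at h
        exact List.count_pos_iff.1 (by omega)
      simpa using memL_of this
    · have hb : Nat.beq x 1 = false := by
        cases h' : Nat.beq x 1
        · rfl
        · exact absurd (Nat.eq_of_beq_eq_true h') hx
      rw [hb]
      apply ih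
      rwa [List.count_cons_of_ne (Ne.symm (Ne.symm hx))] at h

/-- some triple of entries of `l` has sum `t` and satisfies `TP` -/
noncomputable def covC (l : List ℕ) (t : ℕ) : Bool :=
  (Nat.beq (Nat.mod t 2) 0 && Nat.ble 3 t && two1 l && memL (Nat.sub t 2) l) ||
  (memL 1 l &&
    ((Nat.ble 6 t && !(Nat.beq (Nat.mod (Nat.sub t 3) 3) 2) && memL (Nat.sub t 3) l && memL 2 l) ||
    (Nat.ble 8 t && Nat.beq (Nat.mod t 2) 0 && memL (Nat.sub t 4) l && memL 3 l) ||
    (memL t [10, 11, 13, 15, 18, 23] && memL (Nat.sub t 5) l && memL 4 l) ||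
    (Nat.beq t 12 && memL 5 l && memL 6 l) ||
    (memL t [14, 15, 17, 19, 21] && memL (Nat.sub t 7) l && memL 6 l))) ||
  (Nat.beq t 12 && memL 2 l && memL 4 l && memL 6 l)

lemma covC_of {l : List ℕ} {t p q r : ℕ} (hl : ∀ x ∈ l, 0 < x)
    (hle : ({p, q, r} : Multiset ℕ) ≤ ↑l) (hT : TP p q r) (ht : p + q + r = t) :
    covC l t = true := by
  have hp : p ∈ l := by
    have : p ∈ (↑l : Multiset ℕ) := Multiset.mem_of_le hle (by simp)
    simpa using this
  have hq : q ∈ l := by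
    have : q ∈ (↑l : Multiset ℕ) := Multiset.mem_of_le hle (by simp)
    simpa using this
  have hr : r ∈ l := by
    have : r ∈ (↑l : Multiset ℕ) := Multiset.mem_of_le hle (by simp)
    simpa using this
  have hr0 := hl r hr
  unfold covC
  subst ht
  rcases hT with ⟨rfl, rfl, h⟩ | ⟨rfl, rfl, h, h'⟩ | ⟨rfl, rfl, h, h'⟩ | ⟨rfl, rfl, h⟩ |
    ⟨rfl, rfl, h⟩ | ⟨rfl, rfl, h⟩ | ⟨rfl, rfl, h⟩
  · have h2 : two1 l = true := by
      apply two1_of
      have := Multiset.count_le_of_le 1 hle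
      rw [Multiset.coe_count] at this
      refine le_trans ?_ this
      simp
    have e1 : Nat.beq (Nat.mod (1 + 1 + r) 2) 0 = true := by
      rw [Nat.beq_eq]
      show (1 + 1 + r) % 2 = 0
      omega
    have e2 : Nat.ble 3 (1 + 1 + r) = true := by rw [Nat.ble_eq]; omega
    have e3 : Nat.sub (1 + 1 + r) 2 = r := by show 1 + 1 + r - 2 = r; omega
    simp [h2, e1, e2, e3, memL_of hr]
  · have e1 : Nat.beq (Nat.mod (Nat.sub (1 + 2 + r) 3) 3) 2 = false := by
      cases h2 : Nat.beq (Nat.mod (Nat.sub (1 + 2 + r) 3) 3) 2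
      · rfl
      · exfalso
        have := Nat.eq_of_beq_eq_true h2
        change (1 + 2 + r - 3) % 3 = 2 at this
        omega
    have e2 : Nat.ble 6 (1 + 2 + r) = true := by rw [Nat.ble_eq]; omega
    have e3 : Nat.sub (1 + 2 + r) 3 = r := by show 1 + 2 + r - 3 = r; omega
    rw [e3] at e1
    simp [e1, e2, e3, memL_of hp, memL_of hq, memL_of hr]
  · have e1 : Nat.beq (Nat.mod (1 + 3 + r) 2) 0 = true := by
      rw [Nat.beq_eq]
      show (1 + 3 + r) % 2 = 0
      omega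
    have e2 : Nat.ble 8 (1 + 3 + r) = true := by rw [Nat.ble_eq]; omega
    have e3 : Nat.sub (1 + 3 + r) 4 = r := by show 1 + 3 + r - 4 = r; omega
    simp [e1, e2, e3, memL_of hp, memL_of hq, memL_of hr]
  · have e3 : Nat.sub (1 + 4 + r) 5 = r := by show 1 + 4 + r - 5 = r; omega
    have e4 : memL (1 + 4 + r) [10, 11, 13, 15, 18, 23] = true := by
      apply memL_of
      rcases h with rfl | rfl | rfl | rfl | rfl | rfl <;> simp
    simp [e3, e4, memL_of hp, memL_of hq, memL_of hr]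
  · subst h
    simp [memL_of hp, memL_of hq, memL_of hr]
  · have e3 : Nat.sub (1 + 6 + r) 7 = r := by show 1 + 6 + r - 7 = r; omega
    have e4 : memL (1 + 6 + r) [14, 15, 17, 19, 21] = true := by
      apply memL_of
      rcases h with rfl | rfl | rfl | rfl | rfl <;> simp
    simp [e3, e4, memL_of hp, memL_of hq, memL_of hr]
  · subst h
    simp [memL_of hp, memL_of hq, memL_of hr]

noncomputable def covA (n : ℕ) (l : List ℕ) (r : ℕ) : Bool :=
  Nat.ble (Nat.sub n r) 41 && anyR l (fun x => Nat.ble (Nat.succ r) x &&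
    memS (Nat.sub (Nat.sub n 3) r) (Nat.sub x r :: l.erase x))

noncomputable def covB (n : ℕ) (l : List ℕ) (a : ℕ) : Bool :=
  memL a l || memL (Nat.sub n a) l || covC l (Nat.sub a 1) || covC l (Nat.sub (Nat.sub n a) 1) ||
    covA n l a || covA n l (Nat.sub n a)

lemma covA_of {l : List ℕ} {x r : ℕ} (hx : x ∈ l) (hrx : r < x)
    (hS : Surv ((x - r) ::ₘ (↑l : Multiset ℕ).erase x)) : covA (3 + l.sum) l r = true := by
  unfold covA
  rw [Multiset.coe_erase] at hS
  have h1 := memS_of (l := (x - r) :: l.erase x) hS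
  have h2 : ((x - r) :: l.erase x).sum = 3 + l.sum - 3 - r := by
    have := List.sum_erase hx
    rw [List.sum_cons]
    omega
  have h3 := Surv.sum hS
  rw [Multiset.cons_coe, Multiset.sum_coe, h2] at h3
  rw [Bool.and_eq_true, anyR_eq, List.any_eq_true]
  refine ⟨?_, x, hx, ?_⟩
  · rw [Nat.ble_eq]
    show 3 + l.sum - r ≤ 41
    omega
  · rw [Bool.and_eq_true]
    refine ⟨by rw [Nat.ble_eq]; exact hrx, ?_⟩
    rw [h2] at h1
    exact h1

lemma covB_of {l : List ℕ} {a : ℕ} (ha : 1 ≤ a) (hl : ∀ x ∈ l, 0 < x) (h : covM ↑l a) :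
    covB (3 + l.sum) l a = true := by
  unfold covB
  simp only [Bool.or_eq_true]
  rcases h with ⟨x, hx, r, hr, hrx, hS⟩ | ⟨r, hr, h⟩ | ⟨p, q, r, hpq, hqr, hle, hT, h⟩
  · rcases hr with rfl | hr
    · left; right
      exact covA_of (by simpa using hx) hrx hS
    · right
      rw [Multiset.sum_coe] at hr
      have e : Nat.sub (3 + l.sum) a = r := by show 3 + l.sum - a = r; omega
      rw [e]
      exact covA_of (by simpa using hx) hrx hS
  · rw [Multiset.sum_coe] at h
    rcases h with rfl | h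
    · left; left; left; left; left
      exact memL_of (by simpa using hr)
    · left; left; left; left; right
      have e : Nat.sub (3 + l.sum) a = r := by show 3 + l.sum - a = r; omega
      rw [e]
      exact memL_of (by simpa using hr)
  · rw [Multiset.sum_coe] at h
    rcases h with h | h
    · left; left; left; right
      exact covC_of hl hle hT (by show p + q + r = a - 1; omega)
    · left; left; right
      exact covC_of hl hle hT (by show p + q + r = 3 + l.sum - a - 1; omega)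

/-- the order in which the sizes are tried -/
def wl : List ℕ := [14, 15, 17, 16, 19, 18, 20, 21, 23, 5, 6, 4, 3, 2, 12, 10, 11, 8]

noncomputable def chk (n : ℕ) (l : List ℕ) : Bool :=
  anyR wl (fun a => Nat.ble (Nat.mul 2 a) n && !covB n l a) || memS (Nat.sub n 3) l

lemma chk_spec {l : List ℕ} (hl : ∀ x ∈ l, 0 < x) {n : ℕ} (hn : n = 3 + l.sum)
    (hc : chk n l = true)
    (h : ∀ a, 1 ≤ a → 2 * a ≤ 3 + (↑l : Multiset ℕ).sum → covM ↑l a) : Surv ↑l := by
  subst hn
  unfold chk at hc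
  rw [Bool.or_eq_true] at hc
  rw [Multiset.sum_coe] at h
  rcases hc with hc | hc
  · exfalso
    rw [anyR_eq, List.any_eq_true] at hc
    obtain ⟨a, ha, h2⟩ := hc
    simp only [Bool.and_eq_true, Nat.ble_eq, Bool.not_eq_true'] at h2
    have hwl : ∀ a ∈ wl, 1 ≤ a := by decide
    have ha1 : 1 ≤ a := hwl a ha
    have := covB_of ha1 hl (h a ha1 h2.1)
    rw [this] at h2
    exact absurd h2.2 (by decide)
  · exact of_memS hc

end Pool.Agent.V132.SS
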