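import Pool.Agent.V132.SS.A2

namespace Pool.Agent.V132.SS

noncomputable def allR (l : List ℕ) (f : ℕ → Bool) : Bool :=
  List.rec (motive := fun _ => Bool) true
    (fun x _ ih => Bool.rec (motive := fun _ => Bool) false ih (f x)) l

lemma allR_iff (l : List ℕ) (f : ℕ → Bool) : allR l f = true → ∀ x ∈ l, f x = true := by
  induction l with
  | nil => simp
  | cons x l ih =>
    intro h
    change Bool.rec (motive := fun _ => Bool) false (allR l f) (f x) = true at h
    cases hf : f x
    · rw [hf] at h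
      exact absurd h Bool.false_ne_true
    · rw [hf] at h
      intro y hy
      rcases List.mem_cons.1 hy with rfl | hy
      · exact hf
      · exact ih h y hy

/-- all numbers in `[1, n]` -/
noncomputable def upto (n : ℕ) (f : ℕ → Bool) : Bool :=
  Nat.rec (motive := fun _ => Bool) true
    (fun k ih => Bool.rec (motive := fun _ => Bool) false ih (f (Nat.succ k))) n

lemma upto_iff (n : ℕ) (f : ℕ → Bool) : upto n f = true → ∀ x, 1 ≤ x → x ≤ n → f x = true := by
  induction n with
  | zero => intro _ x h1 h2; omega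
  | succ n ih =>
    intro h
    change Bool.rec (motive := fun _ => Bool) false (upto n f) (f (Nat.succ n)) = true at h
    cases hf : f (Nat.succ n)
    · rw [hf] at h
      exact absurd h Bool.false_ne_true
    · rw [hf] at h
      intro x h1 h2
      rcases Nat.eq_or_lt_of_le h2 with rfl | h3
      · exact hf
      · exact ih h x h1 (by omega)

/-- The first family: survivors with one entry increased by at most 6. -/
noncomputable def chkA (s : ℕ × List ℕ) : Bool :=
  allR s.2 fun x => allR [1, 2, 3, 4, 5, 6] fun a =>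
    chk (Nat.add (Nat.add 3 s.1) a) (Nat.add x a :: s.2.erase x)

set_option maxRecDepth 100000
lemma chkA_1 : ((SL.take 6).all fun s => chkA s) = true := by decide +kernel
lemma chkA_2 : (((SL.drop 6).take 6).all fun s => chkA s) = true := by decide +kernel
lemma chkA_3 : (((SL.drop 12).take 6).all fun s => chkA s) = true := by decide +kernel
lemma chkA_4 : ((SL.drop 18).all fun s => chkA s) = true := by decide +kernel

/-- The second family. -/
noncomputable def chkII (u z : ℕ) : Bool :=
  upto z fun y => chk (Nat.add (Nat.add (Nat.add 19 u) y) z) [1, 2, 3, 4, 6, u, y, z]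

lemma chkII_1 : upto 25 (chkII 1) = true := by decide +kernel
lemma chkII_2 : upto 25 (chkII 5) = true := by decide +kernel
lemma chkII_1' : allR [26, 27, 28, 29, 30, 31, 32, 33, 34] (chkII 1) = true := by decide +kernel
lemma chkII_2' : allR [26, 27, 28, 29, 30, 31, 32, 33, 34] (chkII 5) = true := by decide +kernel

lemma chkA_all : ∀ s ∈ SL, chkA s = true := by
  intro s hs
  have h : SL = SL.take 6 ++ ((SL.drop 6).take 6 ++ ((SL.drop 12).take 6 ++ SL.drop 18)) := by
    decide
  rw [h, List.mem_append, List.mem_append, List.mem_append] at hs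
  rcases hs with hs | hs | hs | hs
  · exact List.all_eq_true.1 chkA_1 s hs
  · exact List.all_eq_true.1 chkA_2 s hs
  · exact List.all_eq_true.1 chkA_3 s hs
  · exact List.all_eq_true.1 chkA_4 s hs

lemma chkII_all {u z : ℕ} (hu : u = 1 ∨ u = 5) (h1 : 1 ≤ z) (h2 : z ≤ 34) : chkII u z = true := by
  by_cases h : z ≤ 25
  · rcases hu with rfl | rfl
    · exact upto_iff _ _ chkII_1 z h1 h
    · exact upto_iff _ _ chkII_2 z h1 h
  · have hz : z ∈ [26, 27, 28, 29, 30, 31, 32, 33, 34] := by
      simp
      omega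
    rcases hu with rfl | rfl
    · exact allR_iff _ _ chkII_1' z hz
    · exact allR_iff _ _ chkII_2' z hz

lemma sum_ge {M : Multiset ℕ} (hpos : ∀ x ∈ M, 0 < x) : M.card ≤ M.sum := by
  induction M using Multiset.induction with
  | empty => simp
  | cons a M ih =>
    have h1 := hpos a (Multiset.mem_cons_self _ _)
    have h2 := ih (fun x hx => hpos x (Multiset.mem_cons_of_mem hx))
    rw [Multiset.card_cons, Multiset.sum_cons]
    omega

lemma TP_pos {p q r : ℕ} (h : TP p q r) : 1 ≤ p ∧ 1 ≤ q ∧ p ≤ 2 ∧ q ≤ 6 := by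
  rcases h with h | h | h | h | h | h | h <;> omega

/-- a sub-multiset of size three leaves the rest -/
lemma le_rest {M : Multiset ℕ} (hpos : ∀ x ∈ M, 0 < x) {p q r : ℕ}
    (hle : ({p, q, r} : Multiset ℕ) ≤ M) : M.card + (p + q + r) ≤ M.sum + 3 := by
  obtain ⟨R, rfl⟩ := Multiset.le_iff_exists_add.1 hle
  have hR : ∀ x ∈ R, 0 < x := fun x hx => hpos x (Multiset.mem_add.2 (Or.inr hx))
  have := sum_ge hR
  simp
  omega

lemma erase_rest {M : Multiset ℕ} (hpos : ∀ x ∈ M, 0 < x) {x : ℕ} (hx : x ∈ M) :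
    M.card + x ≤ M.sum + 1 ∧ (M.erase x).sum + x = M.sum := by
  obtain ⟨R, rfl⟩ := Multiset.exists_cons_of_mem hx
  have hR : ∀ y ∈ R, 0 < y := fun y hy => hpos y (Multiset.mem_cons_of_mem hy)
  have := sum_ge hR
  simp
  omega

theorem surv {M : Multiset ℕ} (hcard : M.card = 8) (hpos : ∀ x ∈ M, 0 < x)
    (h : ∀ a, 1 ≤ a → 2 * a ≤ 3 + M.sum → covM M a) : Surv M := by
  have hsum : 8 ≤ M.sum := hcard ▸ sum_ge hpos
  by_cases hA : ∃ a, 1 ≤ a ∧ a ≤ 6 ∧ ∃ x ∈ M, a < x ∧ Surv ((x - a) ::ₘ M.erase x)
  · obtain ⟨a, ha1, ha6, x, hx, hax, s, hs, hM'⟩ := hA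
    have h1 : x - a ∈ s.2 := by
      have : x - a ∈ (↑s.2 : Multiset ℕ) := by rw [← hM']; exact Multiset.mem_cons_self _ _
      simpa using this
    have h2 : M.erase x = ↑(s.2.erase (x - a)) := by
      rw [← Multiset.coe_erase, ← hM', Multiset.erase_cons_head]
    have h3 : M = ↑((x - a + a) :: s.2.erase (x - a)) := by
      rw [← Multiset.cons_coe, ← h2, Nat.sub_add_cancel hax.le, Multiset.cons_erase hx]
    have h4 := allR_iff _ _ (chkA_all s hs) (x - a) h1
    have h5 : chk (Nat.add (Nat.add 3 s.1) a) ((x - a + a) :: s.2.erase (x - a)) = true :=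
      allR_iff _ _ h4 a (by simp; omega)
    rw [h3]
    refine chk_spec ?_ ?_ h5 ?_
    · intro y hy
      apply hpos
      rw [h3]
      exact Multiset.mem_coe.2 hy
    · have h6 := (SL_sum s hs).1
      have h7 := List.sum_erase h1
      show 3 + s.1 + a = 3 + ((x - a + a) :: s.2.erase (x - a)).sum
      rw [List.sum_cons]
      omega
    · rw [← h3]; exact h
  · have small : ∀ a, 1 ≤ a → a ≤ 6 → 2 * a ≤ 3 + M.sum → a ∈ M ∨
        ∃ p q r, {p, q, r} ≤ M ∧ TP p q r ∧ p + q + r + 1 = a := by
      intro a ha1 ha6 ha2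
      rcases h a ha1 ha2 with ⟨x, hx, r, hr, hrx, hS⟩ | ⟨r, hr, h⟩ | ⟨p, q, r, hpq, hqr, hle, hT, h⟩
      · exfalso
        rcases hr with rfl | hr
        · exact hA ⟨r, ha1, ha6, x, hx, hrx, hS⟩
        · have := (erase_rest hpos hx).1
          omega
      · rcases h with rfl | h
        · left; exact hr
        · have := (erase_rest hpos hr).1
          omega
      · right
        refine ⟨p, q, r, hle, hT, ?_⟩
        have := le_rest hpos hle
        omega
    have m1 : 1 ∈ M := by
      rcases small 1 (by omega) (by omega) (by omega) with h | ⟨p, q, r, _, hT, h⟩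
      · exact h
      · have := TP_pos hT; omega
    have m2 : 2 ∈ M := by
      rcases small 2 (by omega) (by omega) (by omega) with h | ⟨p, q, r, _, hT, h⟩
      · exact h
      · have := TP_pos hT; omega
    have m3 : 3 ∈ M := by
      rcases small 3 (by omega) (by omega) (by omega) with h | ⟨p, q, r, hle, hT, h⟩
      · exact h
      · have h3 := TP_pos hT
        have h4 : r ∈ M := Multiset.mem_of_le hle (by simp)
        have := hpos r h4
        omega
    have m4 : 4 ∈ M := by
      rcases small 4 (by omega) (by omega) (by omega) with h | ⟨p, q, r, hle, hT, h⟩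
      · exact h
      · have h4 : r ∈ M := Multiset.mem_of_le hle (by simp)
        have := hpos r h4
        rcases hT with h | h | h | h | h | h | h <;> omega
    obtain ⟨M1, rfl⟩ := Multiset.exists_cons_of_mem m1
    obtain ⟨M2, rfl⟩ := Multiset.exists_cons_of_mem
      ((Multiset.mem_cons.1 m2).resolve_left (by norm_num))
    obtain ⟨M3, rfl⟩ := Multiset.exists_cons_of_mem
      ((Multiset.mem_cons.1 ((Multiset.mem_cons.1 m3).resolve_left (by norm_num))).resolve_left
        (by norm_num))
    obtain ⟨M4, rfl⟩ := Multiset.exists_cons_of_mem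
      ((Multiset.mem_cons.1 ((Multiset.mem_cons.1 ((Multiset.mem_cons.1 m4).resolve_left
        (by norm_num))).resolve_left (by norm_num))).resolve_left (by norm_num))
    have hpos4 : ∀ x ∈ M4, 0 < x := fun x hx => hpos x (by simp [hx])
    have hcard4 : M4.card = 4 := by simpa using hcard
    have hs4 : 4 ≤ M4.sum := hcard4 ▸ sum_ge hpos4
    have hsum4 : (1 ::ₘ 2 ::ₘ 3 ::ₘ 4 ::ₘ M4).sum = 10 + M4.sum := by simp; ring
    have m6 : 6 ∈ M4 := by
      rcases small 6 (by omega) (by omega) (by omega) with h | ⟨p, q, r, hle, hT, h⟩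
      · simpa using h
      · have h4 : r ∈ 1 ::ₘ 2 ::ₘ 3 ::ₘ 4 ::ₘ M4 := Multiset.mem_of_le hle (by simp)
        have := hpos r h4
        exfalso
        rcases hT with h | h | h | h | h | h | h <;> omega
    obtain ⟨M5, rfl⟩ := Multiset.exists_cons_of_mem m6
    have m5 : ∃ u, (u = 1 ∨ u = 5) ∧ u ∈ M5 := by
      rcases small 5 (by omega) (by omega) (by omega) with h | ⟨p, q, r, hle, hT, h⟩
      · exact ⟨5, Or.inr rfl, by simpa using h⟩
      · refine ⟨1, Or.inl rfl, ?_⟩
        have h4 : r ∈ 1 ::ₘ 2 ::ₘ 3 ::ₘ 4 ::ₘ 6 ::ₘ M5 := Multiset.mem_of_le hle (by simp)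
        have h5 := hpos r h4
        have h6 : p = 1 ∧ q = 1 := by
          rcases hT with h | h | h | h | h | h | h <;> omega
        obtain ⟨rfl, rfl⟩ := h6
        have h7 := Multiset.count_le_of_le 1 hle
        have h8 : 2 ≤ Multiset.count 1 ({1, 1, r} : Multiset ℕ) := by
          simp [Multiset.insert_eq_cons]
        have h9 : Multiset.count 1 (1 ::ₘ 2 ::ₘ 3 ::ₘ 4 ::ₘ 6 ::ₘ M5) = Multiset.count 1 M5 + 1 := by
          simp
        exact Multiset.one_le_count_iff_mem.1 (by omega)
    obtain ⟨u, hu, hmu⟩ := m5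
    obtain ⟨M6, rfl⟩ := Multiset.exists_cons_of_mem hmu
    have hcard6 : M6.card = 2 := by simpa using hcard4
    obtain ⟨y, z, hyz, rfl⟩ : ∃ y z, y ≤ z ∧ M6 = {y, z} := by
      obtain ⟨y0, z0, h0⟩ := Multiset.card_eq_two.1 hcard6
      rcases le_total y0 z0 with h | h
      · exact ⟨y0, z0, h, h0⟩
      · exact ⟨z0, y0, h, by rw [h0]; exact Multiset.pair_comm _ _⟩
    have hl : (1 ::ₘ 2 ::ₘ 3 ::ₘ 4 ::ₘ 6 ::ₘ u ::ₘ {y, z} : Multiset ℕ) =
      ↑[1, 2, 3, 4, 6, u, y, z] := rfl
    have hy : 0 < y := hpos y (by simp)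
    have hz : 0 < z := hpos z (by simp)
    by_cases hz34 : z ≤ 34
    · have h4 := upto_iff _ _ (chkII_all hu hz hz34) y hy hyz
      rw [hl]
      refine chk_spec ?_ ?_ h4 ?_
      · intro x hx
        apply hpos
        rw [hl]
        exact Multiset.mem_coe.2 hx
      · show 19 + u + y + z = 3 + [1, 2, 3, 4, 6, u, y, z].sum
        simp
        ring
      · rw [← hl]; exact h
    · exfalso
      have hmem : ∀ r, r ∈ (1 ::ₘ 2 ::ₘ 3 ::ₘ 4 ::ₘ 6 ::ₘ u ::ₘ {y, z} : Multiset ℕ) →
          r ≤ 6 ∨ r = y ∨ r = z := by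
        intro r hr
        simp only [Multiset.mem_cons, Multiset.mem_singleton, Multiset.insert_eq_cons] at hr
        omega
      have hsumM : (1 ::ₘ 2 ::ₘ 3 ::ₘ 4 ::ₘ 6 ::ₘ u ::ₘ {y, z} : Multiset ℕ).sum =
          16 + u + y + z := by
        simp
        ring
      obtain ⟨a, ha⟩ : ∃ a, (a = 14 ∧ y ≠ 8 ∧ y ≠ 10 ∧ y ≠ 14) ∨ (a = 15 ∧ (y = 8 ∨ y = 14)) ∨
          (a = 17 ∧ y = 10) := by
        by_cases h1 : y = 8 ∨ y = 14
        · exact ⟨15, by omega⟩
        · by_cases h2 : y = 10
          · exact ⟨17, by omega⟩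
          · exact ⟨14, by omega⟩
      rcases h a (by omega) (by omega) with ⟨x, hx, r, hr, hrx, hS⟩ | ⟨r, hr, h⟩ |
        ⟨p, q, r, hpq, hqr, hle, hT, h⟩
      · have h1 := hmem x hx
        rw [hsumM] at hr
        rcases hr with rfl | hr
        · have h2 := hS.sum
          rw [Multiset.sum_cons] at h2
          have h3 := (erase_rest hpos hx).2
          rw [hsumM] at h3
          omega
        · omega
      · have h1 := hmem r hr
        rw [hsumM] at h
        omega
      · have h1 := hmem r (Multiset.mem_of_le hle (by simp))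
        have h2 := TP_pos hT
        rw [hsumM] at h
        rcases h with h | h
        · rcases hT with h3 | h3 | h3 | h3 | h3 | h3 | h3 <;> omega
        · rcases h1 with h1 | h1 | h1
          · omega
          · omega
          · subst h1
            have h4 := TP_big (by omega) hT
            omega

end Pool.Agent.V132.SS
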