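import Pool.Agent.V132.SS.A3

namespace Pool.Agent.V132.SS

/-- The properties of the family `Q c M` (some RP set has `c` centres and branch sizes `M`). -/
structure Ax (Q : ℕ → Multiset ℕ → Prop) : Prop where
  pos : ∀ c M, Q c M → ∀ x ∈ M, 0 < x
  rem : ∀ c M, 1 ≤ c → Q c M → ∀ a, 1 ≤ a → a < c + M.sum →
    (∃ x ∈ M, ∃ r, 0 < r ∧ (r = a ∨ r + a = c + M.sum) ∧
      ((r = x ∧ Q c (M.erase x)) ∨ (r < x ∧ Q c ((x - r) ::ₘ M.erase x)))) ∨
    (∃ c1 c2 M1 M2, 1 ≤ c1 ∧ 1 ≤ c2 ∧ c1 + c2 = c ∧ Q c1 M1 ∧ Q c2 M2 ∧ c1 + M1.sum = a ∧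
      M.sum = M1.sum + M2.sum ∧ M.card ≤ M1.card + M2.card ∧
      (M.card = M1.card + M2.card → M = M1 + M2))

lemma swap12 (x y z : ℕ) : ({x, y, z} : Multiset ℕ) = {y, x, z} := Multiset.cons_swap _ _ _

lemma swap23 (x y z : ℕ) : ({x, y, z} : Multiset ℕ) = {x, z, y} :=
  congrArg (x ::ₘ ·) (Multiset.pair_comm y z)

lemma TS_sort {x y z : ℕ} (h : TS x y z) :
    ∃ p q r, ({x, y, z} : Multiset ℕ) = {p, q, r} ∧ TP p q r := by
  rcases h with h | h | h | h | h | h
  · exact ⟨_, _, _, rfl, h⟩
  · exact ⟨_, _, _, swap23 _ _ _, h⟩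
  · exact ⟨_, _, _, swap12 _ _ _, h⟩
  · exact ⟨_, _, _, (swap12 _ _ _).trans (swap23 _ _ _), h⟩
  · exact ⟨_, _, _, (swap23 _ _ _).trans (swap12 _ _ _), h⟩
  · exact ⟨_, _, _, ((swap12 _ _ _).trans (swap23 _ _ _)).trans (swap12 _ _ _), h⟩

lemma TP_sorted {p q r : ℕ} (h : TP p q r) (hr : 0 < r) : p ≤ q ∧ q ≤ r ∧ 4 ≤ p + q + r := by
  rcases h with h | h | h | h | h | h | h <;> omega

lemma four_arith {M : Multiset ℕ} (hcard : M.card = 4) (hpos : ∀ x ∈ M, 0 < x)
    (h : ∀ a, 1 ≤ a → a < 1 + M.sum → ∃ x ∈ M, x = a ∨ x + a = 1 + M.sum) : False := by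
  have hs : 4 ≤ M.sum := hcard ▸ sum_ge hpos
  have small : ∀ a, 1 ≤ a → a ≤ 3 → a ∈ M := by
    intro a h1 h2
    obtain ⟨x, hx, h3⟩ := h a h1 (by omega)
    rcases h3 with rfl | h3
    · exact hx
    · have := (erase_rest hpos hx).1
      omega
  have m1 := small 1 (by omega) (by omega)
  have m2 := small 2 (by omega) (by omega)
  have m3 := small 3 (by omega) (by omega)
  obtain ⟨M1, rfl⟩ := Multiset.exists_cons_of_mem m1
  obtain ⟨M2, rfl⟩ := Multiset.exists_cons_of_mem
    ((Multiset.mem_cons.1 m2).resolve_left (by norm_num))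
  obtain ⟨M3, rfl⟩ := Multiset.exists_cons_of_mem
    ((Multiset.mem_cons.1 ((Multiset.mem_cons.1 m3).resolve_left (by norm_num))).resolve_left
      (by norm_num))
  have hc3 : M3.card = 1 := by simpa using hcard
  obtain ⟨w, rfl⟩ := Multiset.card_eq_one.1 hc3
  have hsum : (1 ::ₘ 2 ::ₘ 3 ::ₘ {w} : Multiset ℕ).sum = 6 + w := by simp; ring
  have hw : 0 < w := hpos w (by simp)
  rw [hsum] at h
  obtain ⟨x, hx, h4⟩ := h 4 (by omega) (by omega)
  simp only [Multiset.mem_cons, Multiset.mem_singleton] at hx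
  have hw4 : w = 4 := by omega
  obtain ⟨x, hx, h5⟩ := h 5 (by omega) (by omega)
  simp only [Multiset.mem_cons, Multiset.mem_singleton] at hx
  omega

lemma K1 {Q : ℕ → Multiset ℕ → Prop} (hQ : Ax Q) : ∀ n, ∀ M, M.sum = n → Q 1 M →
    M.card ≤ 3 ∧ ∀ x y z, M = {x, y, z} → TS x y z := by
  intro n
  induction n using Nat.strong_induction_on with
  | _ n ih =>
    intro M hM h
    have hpos := hQ.pos 1 M h
    have rem : ∀ a, 1 ≤ a → a < 1 + M.sum → ∃ x ∈ M, ∃ r, 0 < r ∧ (r = a ∨ r + a = 1 + M.sum) ∧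
        ((r = x ∧ Q 1 (M.erase x)) ∨ (r < x ∧ Q 1 ((x - r) ::ₘ M.erase x))) := by
      intro a ha1 ha2
      rcases hQ.rem 1 M le_rfl h a ha1 ha2 with h1 | ⟨c1, c2, M1, M2, h1, h2, h3, _⟩
      · exact h1
      · omega
    have hcard : M.card ≤ 3 := by
      by_contra hc
      have key : ∀ a, 1 ≤ a → a < 1 + M.sum →
          M.card = 4 ∧ ∃ x ∈ M, x = a ∨ x + a = 1 + M.sum := by
        intro a ha1 ha2
        obtain ⟨x, hx, r, hr0, hr, h1⟩ := rem a ha1 ha2
        have hx0 := hpos x hx
        have e1 := (erase_rest hpos hx).2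
        have e2 := Multiset.card_erase_add_one hx
        rcases h1 with ⟨rfl, h1⟩ | ⟨h1, h2⟩
        · have := (ih _ (by omega) _ rfl h1).1
          exact ⟨by omega, r, hx, hr⟩
        · exfalso
          have := (ih _ (by rw [Multiset.sum_cons]; omega) _ rfl h2).1
          rw [Multiset.card_cons] at this
          omega
      have hs := sum_ge hpos
      exact four_arith (key 1 le_rfl (by omega)).1 hpos (fun a h1 h2 => (key a h1 h2).2)
    refine ⟨hcard, ?_⟩
    have sorted : ∀ x y z, M = {x, y, z} → x ≤ y → y ≤ z → TP x y z := by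
      intro x y z hxyz hxy hyz
      subst hxyz
      have hx : 0 < x := hpos x (by simp)
      have hsum : ({x, y, z} : Multiset ℕ).sum = x + y + z := by simp; ring
      refine tri_arith hx hxy hyz ?_
      intro a ha1 ha2
      obtain ⟨x0, hx0, r, hr0, hr, h1⟩ := rem a ha1 (by rw [hsum]; omega)
      rw [hsum] at hr
      refine ⟨r, by omega, ?_⟩
      simp only [Multiset.insert_eq_cons, Multiset.mem_cons, Multiset.mem_singleton] at hx0
      rcases h1 with ⟨rfl, h1⟩ | ⟨h1, h2⟩
      · left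
        exact hx0
      · right
        rcases hx0 with rfl | rfl | rfl
        · left
          refine ⟨h1, ?_⟩
          have e : (x0 - r) ::ₘ Multiset.erase {x0, y, z} x0 = {x0 - r, y, z} := by
            rw [Multiset.insert_eq_cons x0, Multiset.erase_cons_head]
            rfl
          rw [e] at h2
          refine (ih _ ?_ _ rfl h2).2 _ _ _ rfl
          simp at hsum hM ⊢
          omega
        · right; left
          refine ⟨h1, ?_⟩
          have e : (x0 - r) ::ₘ Multiset.erase {x, x0, z} x0 = {x, x0 - r, z} := by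
            rw [swap12 x x0 z, Multiset.insert_eq_cons x0, Multiset.erase_cons_head,
              ← swap12 (x0 - r) x z]
            rfl
          rw [e] at h2
          refine (ih _ ?_ _ rfl h2).2 _ _ _ rfl
          simp at hsum hM ⊢
          omega
        · right; right
          refine ⟨h1, ?_⟩
          have e : (x0 - r) ::ₘ Multiset.erase {x, y, x0} x0 = {x, y, x0 - r} := by
            rw [swap23 x y x0, swap12 x x0 y, Multiset.insert_eq_cons x0, Multiset.erase_cons_head,
              swap23 x y (x0 - r), swap12 x (x0 - r) y]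
            rfl
          rw [e] at h2
          refine (ih _ ?_ _ rfl h2).2 _ _ _ rfl
          simp at hsum hM ⊢
          omega
    intro x y z hxyz
    unfold TS
    rcases le_total x y with h1 | h1
    · rcases le_total y z with h2 | h2
      · left; exact sorted x y z hxyz h1 h2
      · rcases le_total x z with h3 | h3
        · right; left
          exact sorted x z y (hxyz.trans (swap23 _ _ _)) h3 h2
        · right; right; right; right; left
          exact sorted z x y ((hxyz.trans (swap23 _ _ _)).trans (swap12 _ _ _)) h3 h1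
    · rcases le_total x z with h2 | h2
      · right; right; left
        exact sorted y x z (hxyz.trans (swap12 _ _ _)) h1 h2
      · rcases le_total y z with h3 | h3
        · right; right; right; left
          exact sorted y z x ((hxyz.trans (swap12 _ _ _)).trans (swap23 _ _ _)) h3 h2
        · right; right; right; right; right
          exact sorted z y x (((hxyz.trans (swap12 _ _ _)).trans (swap23 _ _ _)).trans
            (swap12 _ _ _)) h3 h1

/-- a set with one centre and three branches -/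
lemma K1' {Q : ℕ → Multiset ℕ → Prop} (hQ : Ax Q) {M : Multiset ℕ} (h : Q 1 M)
    (hc : M.card = 3) : ∃ p q r, M = {p, q, r} ∧ TP p q r ∧ p ≤ q ∧ q ≤ r ∧ 4 ≤ p + q + r := by
  obtain ⟨x, y, z, rfl⟩ := Multiset.card_eq_three.1 hc
  obtain ⟨p, q, r, h1, h2⟩ := TS_sort ((K1 hQ _ _ rfl h).2 x y z rfl)
  refine ⟨p, q, r, h1, h2, ?_⟩
  apply TP_sorted h2
  apply hQ.pos 1 _ h
  rw [h1]
  simp

lemma K2 {Q : ℕ → Multiset ℕ → Prop} (hQ : Ax Q) : ∀ n, ∀ M, M.sum = n → Q 2 M →
    M.card ≤ 5 := by
  intro n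
  induction n using Nat.strong_induction_on with
  | _ n ih =>
    intro M hM h
    have hpos := hQ.pos 2 M h
    by_contra hc
    have key : ∀ a, 1 ≤ a → a < 2 + M.sum → M.card = 6 ∧ ((∃ x ∈ M, x = a ∨ x + a = 2 + M.sum) ∨
        ∃ p q r p' q' r', M = {p, q, r} + {p', q', r'} ∧ TP p q r ∧ TP p' q' r' ∧
          4 ≤ p + q + r ∧ 1 + p + q + r = a) := by
      intro a ha1 ha2
      rcases hQ.rem 2 M (by norm_num) h a ha1 ha2 with ⟨x, hx, r, hr0, hr, h1⟩ |
        ⟨c1, c2, M1, M2, h1, h2, h3, h4, h5, h6, h7, h8, h9⟩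
      · have hx0 := hpos x hx
        have e1 := (erase_rest hpos hx).2
        have e2 := Multiset.card_erase_add_one hx
        rcases h1 with ⟨rfl, h1⟩ | ⟨h1, h2⟩
        · have := ih _ (by omega) _ rfl h1
          exact ⟨by omega, Or.inl ⟨r, hx, hr⟩⟩
        · exfalso
          have := ih _ (by rw [Multiset.sum_cons]; omega) _ rfl h2
          rw [Multiset.card_cons] at this
          omega
      · obtain rfl : c1 = 1 := by omega
        obtain rfl : c2 = 1 := by omega
        have k1 := (K1 hQ _ _ rfl h4).1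
        have k2 := (K1 hQ _ _ rfl h5).1
        have k3 := h9 (by omega)
        obtain ⟨p, q, r, e1, e2, e3, e4, e5⟩ := K1' hQ h4 (by omega)
        obtain ⟨p', q', r', e1', e2', e3', e4', e5'⟩ := K1' hQ h5 (by omega)
        refine ⟨by omega, Or.inr ⟨p, q, r, p', q', r', by rw [k3, e1, e1'], e2, e2', e5, ?_⟩⟩
        rw [e1] at h6
        simp at h6
        omega
    have hs := sum_ge hpos
    have hcard : M.card = 6 := (key 1 le_rfl (by omega)).1
    have small : ∀ a, 1 ≤ a → a ≤ 6 → a ∈ M ∨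
        ∃ p q r p' q' r', M = {p, q, r} + {p', q', r'} ∧ TP p q r ∧ TP p' q' r' ∧
          4 ≤ p + q + r ∧ 1 + p + q + r = a := by
      intro a ha1 ha2
      rcases (key a ha1 (by omega)).2 with ⟨x, hx, rfl | h1⟩ | h1
      · left; exact hx
      · have := (erase_rest hpos hx).1
        omega
      · right; exact h1
    have small4 : ∀ a, 1 ≤ a → a ≤ 4 → a ∈ M := by
      intro a ha1 ha2
      rcases small a ha1 (by omega) with h1 | ⟨p, q, r, p', q', r', _, _, _, h1, h2⟩
      · exact h1
      · omega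
    have m1 := small4 1 (by omega) (by omega)
    have m2 := small4 2 (by omega) (by omega)
    have m3 := small4 3 (by omega) (by omega)
    have m4 := small4 4 (by omega) (by omega)
    have m6 : 6 ∈ M := by
      rcases small 6 (by omega) (by omega) with h1 | ⟨p, q, r, p', q', r', _, h3, _, h1, h2⟩
      · exact h1
      · exfalso
        rcases h3 with h | h | h | h | h | h | h <;> omega
    have m5 : 5 ∈ M := by
      rcases small 5 (by omega) (by omega) with h1 | ⟨p, q, r, p', q', r', h0, h3, h4, h1, h2⟩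
      · exact h1
      · exfalso
        have h5 : p = 1 ∧ q = 1 ∧ r = 2 := by
          rcases h3 with h | h | h | h | h | h | h <;> omega
        obtain ⟨rfl, rfl, rfl⟩ := h5
        rw [h0] at m3 m4 m6
        simp at m3 m4 m6
        have := TP_mid h4
        omega
    obtain ⟨M1, rfl⟩ := Multiset.exists_cons_of_mem m1
    obtain ⟨M2, rfl⟩ := Multiset.exists_cons_of_mem
      ((Multiset.mem_cons.1 m2).resolve_left (by norm_num))
    obtain ⟨M3, rfl⟩ := Multiset.exists_cons_of_mem
      ((Multiset.mem_cons.1 ((Multiset.mem_cons.1 m3).resolve_left (by norm_num))).resolve_left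
        (by norm_num))
    obtain ⟨M4, rfl⟩ := Multiset.exists_cons_of_mem
      ((Multiset.mem_cons.1 ((Multiset.mem_cons.1 ((Multiset.mem_cons.1 m4).resolve_left
        (by norm_num))).resolve_left (by norm_num))).resolve_left (by norm_num))
    have m5' : 5 ∈ M4 := by simpa using m5
    obtain ⟨M5, rfl⟩ := Multiset.exists_cons_of_mem m5'
    have m6' : 6 ∈ M5 := by simpa using m6
    obtain ⟨M6, rfl⟩ := Multiset.exists_cons_of_mem m6'
    have hc6 : M6 = 0 := by
      rw [← Multiset.card_eq_zero]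
      simpa using hcard
    subst hc6
    have hsum : (1 ::ₘ 2 ::ₘ 3 ::ₘ 4 ::ₘ 5 ::ₘ 6 ::ₘ 0 : Multiset ℕ).sum = 21 := by simp
    rw [hsum] at key
    rcases (key 8 (by norm_num) (by norm_num)).2 with ⟨x, hx, hx2⟩ |
      ⟨p, q, r, p', q', r', h0, h3, h4, h1, h2⟩
    · simp only [Multiset.mem_cons, Multiset.notMem_zero, or_false] at hx
      omega
    · have h5 : p = 1 ∧ q = 2 ∧ r = 4 := by
        rcases h3 with h | h | h | h | h | h | h <;> omega
      obtain ⟨rfl, rfl, rfl⟩ := h5
      rw [h0] at m3 m5 m6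
      simp at m3 m5 m6
      have := TP_mid h4
      omega

theorem K3 {Q : ℕ → Multiset ℕ → Prop} (hQ : Ax Q) : ∀ n, ∀ M, M.sum = n → Q 3 M →
    M.card = 8 → Surv M := by
  intro n
  induction n using Nat.strong_induction_on with
  | _ n ih =>
    intro M hM h hcard
    have hpos := hQ.pos 3 M h
    refine surv hcard hpos ?_
    intro a ha1 ha2
    rcases hQ.rem 3 M (by norm_num) h a ha1 (by omega) with ⟨x, hx, r, hr0, hr, h1⟩ |
      ⟨c1, c2, M1, M2, h1, h2, h3, h4, h5, h6, h7, h8, h9⟩
    · have hx0 := hpos x hx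
      have e1 := (erase_rest hpos hx).2
      have e2 := Multiset.card_erase_add_one hx
      rcases h1 with ⟨rfl, h1⟩ | ⟨h1, h2⟩
      · right; left
        exact ⟨r, hx, hr⟩
      · left
        refine ⟨x, hx, r, hr, h1, ?_⟩
        exact ih _ (by rw [Multiset.sum_cons]; omega) _ rfl h2 (by rw [Multiset.card_cons]; omega)
    · right; right
      obtain ⟨rfl, rfl⟩ | ⟨rfl, rfl⟩ : (c1 = 1 ∧ c2 = 2) ∨ (c1 = 2 ∧ c2 = 1) := by omega
      · have k1 := (K1 hQ _ _ rfl h4).1
        have k2 := K2 hQ _ _ rfl h5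
        have k3 := h9 (by omega)
        obtain ⟨p, q, r, e1, e2, e3, e4, e5⟩ := K1' hQ h4 (by omega)
        refine ⟨p, q, r, e3, e4, ?_, e2, Or.inl ?_⟩
        · rw [k3, e1]; exact Multiset.le_add_right _ _
        · rw [e1] at h6
          simp at h6
          omega
      · have k1 := (K1 hQ _ _ rfl h5).1
        have k2 := K2 hQ _ _ rfl h4
        have k3 := h9 (by omega)
        obtain ⟨p, q, r, e1, e2, e3, e4, e5⟩ := K1' hQ h5 (by omega)
        refine ⟨p, q, r, e3, e4, ?_, e2, Or.inr ?_⟩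
        · rw [k3, e1]; exact Multiset.le_add_left _ _
        · rw [e1] at h7
          simp at h7
          omega

end Pool.Agent.V132.SS
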