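import Pool.Agent.V132.SS.A4

namespace Pool.Agent.V132.SS

open Finset

/-- the multiset of positive values -/
def ms {ι : Type} [Fintype ι] (β : ι → ℕ) : Multiset ℕ :=
  ((univ : Finset ι).val.map β).filter (0 < ·)

lemma ms_pos {ι : Type} [Fintype ι] {β : ι → ℕ} {x : ℕ} (h : x ∈ ms β) : 0 < x :=
  (Multiset.mem_filter.1 h).2

lemma filt_sum (s : Multiset ℕ) : (s.filter (0 < ·)).sum = s.sum := by
  induction s using Multiset.induction with
  | empty => simp
  | cons a s ih =>
    by_cases h : 0 < a
    · rw [Multiset.filter_cons_of_pos _ h, Multiset.sum_cons, Multiset.sum_cons, ih]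
    · rw [Multiset.filter_cons_of_neg _ h, Multiset.sum_cons, ih]
      omega

lemma ms_sum {ι : Type} [Fintype ι] (β : ι → ℕ) : (ms β).sum = ∑ i, β i := by
  unfold ms
  rw [filt_sum]
  rfl

lemma filt_add {ι : Type} (β β1 β2 : ι → ℕ) (h : ∀ i, β i = β1 i + β2 i) (s : Multiset ι) :
    ((s.map β).filter (0 < ·)).card ≤ ((s.map β1).filter (0 < ·)).card +
      ((s.map β2).filter (0 < ·)).card ∧
    (((s.map β).filter (0 < ·)).card = ((s.map β1).filter (0 < ·)).card +
      ((s.map β2).filter (0 < ·)).card → (s.map β).filter (0 < ·) =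
        (s.map β1).filter (0 < ·) + (s.map β2).filter (0 < ·)) := by
  induction s using Multiset.induction with
  | empty => simp
  | cons a s ih =>
    obtain ⟨ih1, ih2⟩ := ih
    rw [Multiset.map_cons, Multiset.map_cons, Multiset.map_cons]
    have ha := h a
    by_cases h1 : 0 < β1 a
    · rw [Multiset.filter_cons_of_pos (p := (0 < ·)) _ h1,
        Multiset.filter_cons_of_pos (p := (0 < ·)) (a := β a) _ (by omega)]
      by_cases h2 : 0 < β2 a
      · rw [Multiset.filter_cons_of_pos (p := (0 < ·)) _ h2]
        rw [Multiset.card_cons, Multiset.card_cons, Multiset.card_cons]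
        constructor
        · omega
        · intro h3; omega
      · rw [Multiset.filter_cons_of_neg (p := (0 < ·)) _ h2]
        rw [Multiset.card_cons, Multiset.card_cons]
        constructor
        · omega
        · intro h3
          rw [ih2 (by omega), Multiset.cons_add]
          congr 1
          omega
    · rw [Multiset.filter_cons_of_neg (p := (0 < ·)) _ h1]
      by_cases h2 : 0 < β2 a
      · rw [Multiset.filter_cons_of_pos (p := (0 < ·)) _ h2,
          Multiset.filter_cons_of_pos (p := (0 < ·)) (a := β a) _ (by omega)]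
        rw [Multiset.card_cons, Multiset.card_cons]
        constructor
        · omega
        · intro h3
          rw [ih2 (by omega), Multiset.add_cons]
          congr 1
          omega
      · rw [Multiset.filter_cons_of_neg (p := (0 < ·)) _ h2,
          Multiset.filter_cons_of_neg (p := (0 < ·)) (a := β a) _ (by omega)]
        exact ⟨ih1, ih2⟩

lemma ms_add {ι : Type} [Fintype ι] {β β1 β2 : ι → ℕ} (h : ∀ i, β i = β1 i + β2 i) :
    (ms β).card ≤ (ms β1).card + (ms β2).card ∧
      ((ms β).card = (ms β1).card + (ms β2).card → ms β = ms β1 + ms β2) :=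
  filt_add β β1 β2 h _

/-- a multiset of branch sizes, with the branch `i` singled out -/
lemma ms_split {ι : Type} [Fintype ι] [DecidableEq ι] (β : ι → ℕ) (i : ι) :
    ms β = (if 0 < β i then {β i} else 0) + (((univ.erase i).val.map β).filter (0 < ·)) := by
  unfold ms
  have h : (univ : Finset ι).val = i ::ₘ (univ.erase i).val := by
    rw [← Finset.insert_val_of_notMem (Finset.notMem_erase i univ),
      Finset.insert_erase (Finset.mem_univ i)]
  rw [h, Multiset.map_cons]
  by_cases h0 : 0 < β i
  · rw [Multiset.filter_cons_of_pos (p := (0 < ·)) _ h0, if_pos h0, Multiset.singleton_add]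
  · rw [Multiset.filter_cons_of_neg (p := (0 < ·)) _ h0, if_neg h0, zero_add]

lemma ms_rem {ι : Type} [Fintype ι] [DecidableEq ι] {β β1 β2 : ι → ℕ}
    (h : ∀ i, β i = β1 i + β2 i) {i : ι} (hi : ∀ j, j ≠ i → β1 j = 0) (h0 : 0 < β1 i) :
    β i ∈ ms β ∧ ((β1 i = β i ∧ ms β2 = (ms β).erase (β i)) ∨
      (β1 i < β i ∧ ms β2 = (β i - β1 i) ::ₘ (ms β).erase (β i))) := by
  have hi' := h i
  have e1 : ((univ.erase i).val.map β) = ((univ.erase i).val.map β2) := by
    apply Multiset.map_congr rfl
    intro j hj
    have hj' : j ≠ i := (Finset.mem_erase.1 hj).1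
    rw [h j, hi j hj', zero_add]
  have e2 := ms_split β i
  rw [if_pos (by omega : 0 < β i), Multiset.singleton_add] at e2
  have e3 := ms_split β2 i
  have e4 : (ms β).erase (β i) = ((univ.erase i).val.map β).filter (0 < ·) := by
    rw [e2, Multiset.erase_cons_head]
  refine ⟨by rw [e2]; exact Multiset.mem_cons_self _ _, ?_⟩
  by_cases h1 : β1 i = β i
  · left
    refine ⟨h1, ?_⟩
    rw [if_neg (by omega), zero_add] at e3
    rw [e3, e4, e1]
  · right
    refine ⟨by omega, ?_⟩
    rw [if_pos (by omega), Multiset.singleton_add] at e3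
    rw [e3, e4, e1]
    congr 1
    omega

/-- splitting along a multiset of pairs -/
lemma ms_pairs {ι : Type} [DecidableEq ι] (β : ι → ℕ) (s : Finset ι) :
    ∀ P : Multiset (ℕ × ℕ), (s.val.map β).filter (0 < ·) = P.map (fun p => p.1 + p.2) →
    ∃ β1 β2 : ι → ℕ, (∀ i ∈ s, β i = β1 i + β2 i) ∧ (∀ i, i ∉ s → β1 i = 0 ∧ β2 i = 0) ∧
      (s.val.map β1).filter (0 < ·) = (P.map Prod.fst).filter (0 < ·) ∧
      (s.val.map β2).filter (0 < ·) = (P.map Prod.snd).filter (0 < ·) := by
  induction s using Finset.induction with
  | empty =>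
    intro P hP
    have h0 : P = 0 := by
      have := congrArg Multiset.card hP
      simp at this
      exact Multiset.card_eq_zero.1 this.symm
    subst h0
    exact ⟨fun _ => 0, fun _ => 0, by simp, by simp, by simp, by simp⟩
  | insert i s hi ih =>
    intro P hP
    rw [Finset.insert_val_of_notMem hi, Multiset.map_cons] at hP
    have upd : ∀ (γ : ι → ℕ) (x : ℕ), (insert i s).val.map (Function.update γ i x) =
        x ::ₘ s.val.map γ := by
      intro γ x
      rw [Finset.insert_val_of_notMem hi, Multiset.map_cons, Function.update_self]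
      congr 1
      apply Multiset.map_congr rfl
      intro j hj
      have : j ≠ i := by
        rintro rfl
        exact hi (Finset.mem_def.2 hj)
      rw [Function.update_of_ne this]
    by_cases h0 : 0 < β i
    · rw [Multiset.filter_cons_of_pos (p := (0 < ·)) _ h0] at hP
      have h1 : β i ∈ P.map (fun p => p.1 + p.2) := by
        rw [← hP]; exact Multiset.mem_cons_self _ _
      obtain ⟨p, hp, hpi⟩ := Multiset.mem_map.1 h1
      obtain ⟨P', rfl⟩ := Multiset.exists_cons_of_mem hp
      rw [Multiset.map_cons, hpi] at hP
      obtain ⟨β1, β2, g1, g2, g3, g4⟩ := ih P' ((Multiset.cons_inj_right _).1 hP)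
      refine ⟨Function.update β1 i p.1, Function.update β2 i p.2, ?_, ?_, ?_, ?_⟩
      · intro j hj
        by_cases hji : j = i
        · subst hji; simp [hpi]
        · rw [Function.update_of_ne hji, Function.update_of_ne hji]
          exact g1 j (by simpa [hji] using hj)
      · intro j hj
        have hji : j ≠ i := by rintro rfl; simp at hj
        rw [Function.update_of_ne hji, Function.update_of_ne hji]
        exact g2 j (fun h => hj (Finset.mem_insert_of_mem h))
      · rw [upd, Multiset.map_cons]
        by_cases hx : 0 < p.1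
        · rw [Multiset.filter_cons_of_pos (p := (0 < ·)) _ hx,
            Multiset.filter_cons_of_pos (p := (0 < ·)) _ hx, g3]
        · rw [Multiset.filter_cons_of_neg (p := (0 < ·)) _ hx,
            Multiset.filter_cons_of_neg (p := (0 < ·)) _ hx, g3]
      · rw [upd, Multiset.map_cons]
        by_cases hx : 0 < p.2
        · rw [Multiset.filter_cons_of_pos (p := (0 < ·)) _ hx,
            Multiset.filter_cons_of_pos (p := (0 < ·)) _ hx, g4]
        · rw [Multiset.filter_cons_of_neg (p := (0 < ·)) _ hx,
            Multiset.filter_cons_of_neg (p := (0 < ·)) _ hx, g4]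
    · rw [Multiset.filter_cons_of_neg (p := (0 < ·)) _ h0] at hP
      obtain ⟨β1, β2, g1, g2, g3, g4⟩ := ih P hP
      refine ⟨Function.update β1 i 0, Function.update β2 i 0, ?_, ?_, ?_, ?_⟩
      · intro j hj
        by_cases hji : j = i
        · subst hji; simp; omega
        · rw [Function.update_of_ne hji, Function.update_of_ne hji]
          exact g1 j (by simpa [hji] using hj)
      · intro j hj
        have hji : j ≠ i := by rintro rfl; simp at hj
        rw [Function.update_of_ne hji, Function.update_of_ne hji]
        exact g2 j (fun h => hj (Finset.mem_insert_of_mem h))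
      · rw [upd, Multiset.filter_cons_of_neg (p := (0 < ·)) _ (by omega), g3]
      · rw [upd, Multiset.filter_cons_of_neg (p := (0 < ·)) _ (by omega), g4]

end Pool.Agent.V132.SS
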