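import Pool.Agent.V132.SS.A5

namespace Pool.Agent.V132.SS

open Finset

/-- `RP G A`: the subgraph of `G` induced on the vertex set `A` is recursively partitionable. Either
`A` has one vertex, or `G[A]` is connected and for every integer partition `a` of `|A|` into
`m ≥ 2` parts there is a partition of `A` into (proper) subsets `P i` with `|P i| = a i` and with
every `G[P i]` recursively partitionable. -/
def RP {V : Type} (G : SimpleGraph V) (A : Finset V) : Prop :=
  A.card = 1 ∨
    ((G.induce (A : Set V)).Connected ∧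
      ∀ (m : ℕ) (a : Fin m → ℕ), 2 ≤ m → Monotone a → (∀ i, 0 < a i) → ∑ i, a i = A.card →
        ∃ (P : Fin m → Finset V) (hP : ∀ i, P i ⊂ A), (∀ i j, i ≠ j → Disjoint (P i) (P j)) ∧
          (∀ v ∈ A, ∃ i, v ∈ P i) ∧ ∀ i, (P i).card = a i ∧ RP G (P i))
termination_by A.card
decreasing_by
  exact Finset.card_lt_card (hP i)

/-- The semistar `K_{b0}(b_1, …, b_k)`: centre vertices `Sum.inl _`, and vertices
`Sum.inr ⟨i, _⟩` of the `i`-th branch. `lab` is the label of a vertex: `none` for the centre and
`some i` for the branch `i`. -/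
def lab {b0 k : ℕ} {b : Fin k → ℕ} : Fin b0 ⊕ (Σ i : Fin k, Fin (b i)) → Option (Fin k)
  | Sum.inl _ => none
  | Sum.inr p => some p.1

/-- The semistar: two distinct vertices are adjacent iff one of them is in the centre or both lie
in the same branch. -/
def semistar (b0 : ℕ) {k : ℕ} (b : Fin k → ℕ) :
    SimpleGraph (Fin b0 ⊕ (Σ i : Fin k, Fin (b i))) where
  Adj x y := x ≠ y ∧ (lab x = none ∨ lab y = none ∨ lab x = lab y)
  symm := ⟨fun x y h => ⟨h.1.symm, by
    rcases h.2 with h | h | h
    · exact Or.inr (Or.inl h)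
    · exact Or.inl h
    · exact Or.inr (Or.inr h.symm)⟩⟩
  loopless := ⟨fun x h => h.1 rfl⟩

section
variable {V : Type} [DecidableEq V] {k : ℕ} (f : V → Option (Fin k)) (G : SimpleGraph V)

/-- number of centre vertices in `A` -/
def cc (A : Finset V) : ℕ := (A.filter (f · = none)).card

/-- number of vertices of branch `i` in `A` -/
def bb (A : Finset V) (i : Fin k) : ℕ := (A.filter (f · = some i)).card

omit [DecidableEq V] in
lemma card_eq (A : Finset V) : A.card = cc f A + ∑ i, bb f A i := by
  have h := Finset.card_eq_sum_card_fiberwise (f := f) (s := A) (t := univ)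
    (fun x _ => Finset.mem_coe.2 (Finset.mem_univ _))
  rw [h, Fintype.sum_option]
  rfl

variable {f}

lemma cc_sdiff {A B : Finset V} (h : B ⊆ A) : cc f A = cc f B + cc f (A \ B) := by
  unfold cc
  have h2 : (A \ B).filter (f · = none) = A.filter (f · = none) \ B.filter (f · = none) := by
    ext v; simp only [mem_filter, mem_sdiff]; tauto
  have h3 : B.filter (f · = none) ⊆ A.filter (f · = none) := Finset.filter_subset_filter _ h
  rw [h2, Finset.card_sdiff_of_subset h3]
  have := Finset.card_le_card h3
  omega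

lemma bb_sdiff {A B : Finset V} (h : B ⊆ A) (i : Fin k) :
    bb f A i = bb f B i + bb f (A \ B) i := by
  unfold bb
  have h2 : (A \ B).filter (f · = some i) = A.filter (f · = some i) \ B.filter (f · = some i) := by
    ext v; simp only [mem_filter, mem_sdiff]; tauto
  have h3 : B.filter (f · = some i) ⊆ A.filter (f · = some i) := Finset.filter_subset_filter _ h
  rw [h2, Finset.card_sdiff_of_subset h3]
  have := Finset.card_le_card h3
  omega

variable {G}

lemma RP_two {A : Finset V} (h : RP G A) {a : ℕ} (h1 : 1 ≤ a) (h2 : a < A.card) :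
    ∃ B, B ⊆ A ∧ B.card = a ∧ RP G B ∧ RP G (A \ B) := by
  rw [RP] at h
  rcases h with h | ⟨_, h⟩
  · omega
  · have key : ∀ P : Fin 2 → Finset V, (∀ i, P i ⊂ A) → (∀ i j, i ≠ j → Disjoint (P i) (P j)) →
        (∀ v ∈ A, ∃ i, v ∈ P i) → A \ P 0 = P 1 ∧ A \ P 1 = P 0 := by
      intro P hP hd hc
      have hd01 := hd 0 1 (by decide)
      rw [Finset.disjoint_left] at hd01
      constructor
      · ext v
        rw [mem_sdiff]
        constructor
        · rintro ⟨hv, hv0⟩
          obtain ⟨i, hi⟩ := hc v hv
          fin_cases i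
          · exact absurd hi hv0
          · exact hi
        · intro hv
          exact ⟨(hP 1).1 hv, fun h0 => hd01 h0 hv⟩
      · ext v
        rw [mem_sdiff]
        constructor
        · rintro ⟨hv, hv0⟩
          obtain ⟨i, hi⟩ := hc v hv
          fin_cases i
          · exact hi
          · exact absurd hi hv0
        · intro hv
          exact ⟨(hP 0).1 hv, fun h0 => hd01 hv h0⟩
    by_cases h3 : a ≤ A.card - a
    · obtain ⟨P, hP, hd, hc, hr⟩ := h 2 ![a, A.card - a] le_rfl
        (by
          intro i j hij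
          fin_cases i <;> fin_cases j <;> simp_all)
        (by
          intro i
          fin_cases i
          · show 0 < a; omega
          · show 0 < A.card - a; omega)
        (by rw [Fin.sum_univ_two]; show a + (A.card - a) = A.card; omega)
      refine ⟨P 0, (hP 0).1, (hr 0).1, (hr 0).2, ?_⟩
      rw [(key P hP hd hc).1]
      exact (hr 1).2
    · obtain ⟨P, hP, hd, hc, hr⟩ := h 2 ![A.card - a, a] le_rfl
        (by
          intro i j hij
          fin_cases i <;> fin_cases j <;> simp_all
          omega)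
        (by
          intro i
          fin_cases i
          · show 0 < A.card - a; omega
          · show 0 < a; omega)
        (by rw [Fin.sum_univ_two]; show (A.card - a) + a = A.card; omega)
      refine ⟨P 1, (hP 1).1, (hr 1).1, (hr 1).2, ?_⟩
      rw [(key P hP hd hc).2]
      exact (hr 0).2

omit [DecidableEq V] in
lemma RP_nonempty {A : Finset V} (h : RP G A) : A.Nonempty := by
  rw [RP] at h
  rcases h with h | ⟨h, _⟩
  · exact Finset.card_pos.1 (by omega)
  · obtain ⟨⟨v, hv⟩⟩ := h.nonempty
    exact ⟨v, hv⟩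

variable (hG : ∀ x y, G.Adj x y ↔ x ≠ y ∧ (f x = none ∨ f y = none ∨ f x = f y))
include hG

lemma RP_branch {A : Finset V} (h : RP G A) (h0 : cc f A = 0) :
    ∃ i, ∀ j, j ≠ i → bb f A j = 0 := by
  obtain ⟨v0, hv0⟩ := RP_nonempty h
  have hnone : ∀ v ∈ A, f v ≠ none := by
    intro v hv h
    unfold cc at h0
    rw [Finset.card_eq_zero, Finset.filter_eq_empty_iff] at h0
    exact h0 hv h
  have hall : ∀ v ∈ A, f v = f v0 := by
    rw [RP] at h
    rcases h with h | ⟨h, _⟩
    · intro v hv
      obtain ⟨w, rfl⟩ := Finset.card_eq_one.1 h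
      rw [Finset.mem_singleton] at hv hv0
      rw [hv, hv0]
    · intro v hv
      have hr := h.preconnected ⟨v, hv⟩ ⟨v0, hv0⟩
      obtain ⟨w⟩ := hr
      have : ∀ (x y : (A : Set V)) (_ : (G.induce (A : Set V)).Walk x y), f x = f y := by
        intro x y w
        induction w with
        | nil => rfl
        | @cons u v w' hadj _ ih =>
          have h1 := (hG _ _).1 hadj
          rcases h1.2 with h2 | h2 | h2
          · exact absurd h2 (hnone _ u.2)
          · exact absurd h2 (hnone _ v.2)
          · exact h2.trans ih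
      exact this _ _ w
  obtain ⟨i, hi⟩ := Option.ne_none_iff_exists'.1 (hnone v0 hv0)
  refine ⟨i, fun j hj => ?_⟩
  unfold bb
  rw [Finset.card_eq_zero, Finset.filter_eq_empty_iff]
  intro v hv h1
  rw [hall v hv, hi] at h1
  exact hj (Option.some.inj h1).symm

lemma conn_of {A : Finset V} (hA : A.Nonempty)
    (h : 0 < cc f A ∨ ∃ i, ∀ v ∈ A, f v = some i) : (G.induce (A : Set V)).Connected := by
  have key : ∀ v (hv : v ∈ A), (∀ w ∈ A, w ≠ v → G.Adj v w) →
      (G.induce (A : Set V)).Connected := by
    intro v hv hw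
    rw [SimpleGraph.connected_iff_exists_forall_reachable]
    refine ⟨⟨v, hv⟩, fun w => ?_⟩
    by_cases h : w = ⟨v, hv⟩
    · rw [h]
    · apply SimpleGraph.Adj.reachable
      show G.Adj v w.1
      apply hw _ w.2
      intro h'
      exact h (Subtype.ext h')
  rcases h with h | ⟨i, hi⟩
  · unfold cc at h
    obtain ⟨v, hv⟩ := Finset.card_pos.1 h
    rw [mem_filter] at hv
    refine key v hv.1 (fun w _ hwv => ?_)
    rw [hG]
    exact ⟨hwv.symm, Or.inl hv.2⟩
  · obtain ⟨v, hv⟩ := hA
    refine key v hv (fun w hw hwv => ?_)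
    rw [hG]
    exact ⟨hwv.symm, Or.inr (Or.inr (by rw [hi v hv, hi w hw]))⟩

/-- The family of the counts of RP sets satisfies `Ax`. -/
lemma ax_graph : Ax (fun c M => ∃ A : Finset V, RP G A ∧ cc f A = c ∧ ms (bb f A) = M) where
  pos := by
    rintro c M ⟨A, _, _, rfl⟩ x hx
    exact ms_pos hx
  rem := by
    rintro c M hc ⟨A, hA, rfl, rfl⟩ a ha1 ha2
    rw [ms_sum] at ha2 ⊢
    rw [← card_eq f A] at ha2 ⊢
    obtain ⟨B, hBA, hBc, hB, hB'⟩ := RP_two hA ha1 ha2
    have hb : ∀ i, bb f A i = bb f B i + bb f (A \ B) i := bb_sdiff hBA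
    have hb' : ∀ i, bb f A i = bb f (A \ B) i + bb f B i := by
      intro i; rw [hb i, add_comm]
    have hcc := cc_sdiff (f := f) hBA
    have e1 := card_eq f B
    have e2 := card_eq f (A \ B)
    have e3 : (A \ B).card + B.card = A.card := by
      rw [Finset.card_sdiff_of_subset hBA]
      omega
    by_cases h1 : cc f B = 0
    · left
      obtain ⟨i, hi⟩ := RP_branch hG hB h1
      have h4 : ∑ j, bb f B j = bb f B i := Finset.sum_eq_single i (fun j _ hj => hi j hj)
        (by simp)
      have h5 : bb f B i = a := by omega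
      obtain ⟨h2, h3⟩ := ms_rem hb hi (by omega)
      refine ⟨_, h2, bb f B i, by omega, Or.inl h5, ?_⟩
      rcases h3 with ⟨h3, h6⟩ | ⟨h3, h6⟩
      · left
        exact ⟨h3, A \ B, hB', by omega, h6⟩
      · right
        exact ⟨h3, A \ B, hB', by omega, h6⟩
    · by_cases h1' : cc f (A \ B) = 0
      · left
        obtain ⟨i, hi⟩ := RP_branch hG hB' h1'
        have h4 : ∑ j, bb f (A \ B) j = bb f (A \ B) i :=
          Finset.sum_eq_single i (fun j _ hj => hi j hj) (by simp)
        obtain ⟨h2, h3⟩ := ms_rem hb' hi (by omega)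
        refine ⟨_, h2, bb f (A \ B) i, by omega, Or.inr (by omega), ?_⟩
        rcases h3 with ⟨h3, h6⟩ | ⟨h3, h6⟩
        · left
          exact ⟨h3, B, hB, by omega, h6⟩
        · right
          exact ⟨h3, B, hB, by omega, h6⟩
      · right
        refine ⟨cc f B, cc f (A \ B), ms (bb f B), ms (bb f (A \ B)), by omega, by omega,
          by omega, ⟨B, hB, rfl, rfl⟩, ⟨A \ B, hB', rfl, rfl⟩, ?_, ?_, ?_, ?_⟩
        · rw [ms_sum]; omega
        · rw [ms_sum, ms_sum, ← Finset.sum_add_distrib]
          exact Finset.sum_congr rfl (fun i _ => hb i)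
        · exact (ms_add hb).1
        · exact (ms_add hb).2

end

end Pool.Agent.V132.SS
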