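import Pool.Agent.V132.SS.A6

namespace Pool.Agent.V132.SS

open Finset

section closed
variable {V : Type} [DecidableEq V]

lemma parts_of_closed (C : Finset V → Prop)
    (hsplit : ∀ A, C A → ∀ a, 1 ≤ a → a < A.card →
      ∃ B, B ⊆ A ∧ B.card = a ∧ C B ∧ C (A \ B)) :
    ∀ (m : ℕ) (A : Finset V) (a : Fin (m + 1) → ℕ), C A → (∀ i, 0 < a i) → ∑ i, a i = A.card →
      ∃ P : Fin (m + 1) → Finset V, (∀ i, P i ⊆ A) ∧ (∀ i j, i ≠ j → Disjoint (P i) (P j)) ∧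
        (∀ v ∈ A, ∃ i, v ∈ P i) ∧ ∀ i, (P i).card = a i ∧ C (P i) := by
  intro m
  induction m with
  | zero =>
    intro A a hA ha hs
    refine ⟨fun _ => A, fun _ => Finset.Subset.refl _, ?_, fun v hv => ⟨0, hv⟩, ?_⟩
    · intro i j hij; exact absurd (Fin.ext (by omega)) hij
    · intro i
      have hi : i = 0 := Fin.ext (by omega)
      subst hi
      rw [Fin.sum_univ_succ] at hs
      simp at hs
      exact ⟨hs.symm, hA⟩
  | succ m ih =>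
    intro A a hA ha hs
    rw [Fin.sum_univ_succ] at hs
    have h1 : 0 < ∑ i : Fin (m + 1), a i.succ :=
      Finset.sum_pos (fun i _ => ha _) ⟨0, mem_univ _⟩
    obtain ⟨B, hB, hBc, hCB, hCB'⟩ := hsplit A hA (a 0) (ha 0) (by omega)
    obtain ⟨P, hP1, hP2, hP3, hP4⟩ := ih (A \ B) (fun i => a i.succ) hCB' (fun i => ha _)
      (by rw [card_sdiff_of_subset hB]; omega)
    have hdis : ∀ i, Disjoint B (P i) := by
      intro i
      rw [Finset.disjoint_left]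
      intro v hv hv'
      exact (mem_sdiff.1 (hP1 i hv')).2 hv
    refine ⟨Fin.cons B P, ?_, ?_, ?_, ?_⟩
    · intro i
      refine Fin.cases ?_ ?_ i
      · exact hB
      · intro i; exact (hP1 i).trans sdiff_subset
    · intro i j
      refine Fin.cases ?_ (fun i => ?_) i
      · refine Fin.cases ?_ (fun j => ?_) j
        · intro h; exact absurd rfl h
        · intro _; exact hdis j
      · refine Fin.cases ?_ (fun j => ?_) j
        · intro _; exact (hdis i).symm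
        · intro h
          exact hP2 i j (fun h' => h (by rw [h']))
    · intro v hv
      by_cases hvB : v ∈ B
      · exact ⟨0, hvB⟩
      · obtain ⟨i, hi⟩ := hP3 v (mem_sdiff.2 ⟨hv, hvB⟩)
        exact ⟨i.succ, hi⟩
    · intro i
      refine Fin.cases ?_ (fun i => ?_) i
      · exact ⟨hBc, hCB⟩
      · exact hP4 i

lemma RP_of_closed (G : SimpleGraph V) (C : Finset V → Prop)
    (hconn : ∀ A, C A → (G.induce (A : Set V)).Connected)
    (hsplit : ∀ A, C A → ∀ a, 1 ≤ a → a < A.card →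
      ∃ B, B ⊆ A ∧ B.card = a ∧ C B ∧ C (A \ B)) :
    ∀ n, ∀ A : Finset V, A.card = n → C A → RP G A := by
  intro n
  induction n using Nat.strong_induction_on with
  | _ n ih =>
    intro A hn hA
    rw [RP]
    right
    refine ⟨hconn A hA, fun m a hm _ ha hs => ?_⟩
    obtain ⟨m', rfl⟩ : ∃ m', m = m' + 1 := ⟨m - 1, by omega⟩
    obtain ⟨P, hP1, hP2, hP3, hP4⟩ := parts_of_closed C hsplit m' A a hA ha hs
    have hlt : ∀ i, (P i).card < A.card := by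
      intro i
      rw [(hP4 i).1, ← hs]
      obtain ⟨j, hj⟩ : ∃ j : Fin (m' + 1), j ≠ i := by
        by_cases h0 : i = 0
        · refine ⟨⟨1, by omega⟩, ?_⟩
          rw [h0]
          intro h
          have := congrArg Fin.val h
          simp at this
        · exact ⟨0, fun h => h0 h.symm⟩
      exact Finset.single_lt_sum hj (mem_univ _) (mem_univ _) (ha j) (fun _ _ _ => Nat.zero_le _)
    refine ⟨P, ?_, hP2, hP3, ?_⟩
    · intro i
      refine ⟨hP1 i, fun h => ?_⟩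
      have := Finset.card_le_card h
      have := hlt i
      omega
    · intro i
      exact ⟨(hP4 i).1, ih _ (hn ▸ hlt i) _ rfl (hP4 i).2⟩

/-- subsets with prescribed counts -/
lemma exists_sub {k : ℕ} {f : V → Option (Fin k)} (A : Finset V) (c : ℕ) (β : Fin k → ℕ)
    (hc : c ≤ cc f A) (hβ : ∀ i, β i ≤ bb f A i) :
    ∃ B, B ⊆ A ∧ cc f B = c ∧ bb f B = β := by
  have h1 : ∀ o : Option (Fin k), ∃ S, S ⊆ A.filter (f · = o) ∧ S.card = o.elim c β := by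
    intro o
    apply Finset.exists_subset_card_eq
    cases o with
    | none => exact hc
    | some i => exact hβ i
  choose S hS hSc using h1
  have hfil : ∀ o, (univ.biUnion S).filter (f · = o) = S o := by
    intro o
    ext v
    rw [mem_filter, mem_biUnion]
    constructor
    · rintro ⟨⟨o', _, h2⟩, h3⟩
      have h4 := (mem_filter.1 (hS o' h2)).2
      rw [h4] at h3
      subst h3
      exact h2
    · intro h2
      exact ⟨⟨o, mem_univ _, h2⟩, (mem_filter.1 (hS o h2)).2⟩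
  refine ⟨univ.biUnion S, ?_, ?_, ?_⟩
  · intro v hv
    obtain ⟨o, _, h2⟩ := mem_biUnion.1 hv
    exact (mem_filter.1 (hS o h2)).1
  · unfold cc
    rw [hfil]
    exact hSc none
  · funext i
    unfold bb
    rw [hfil]
    exact hSc (some i)

end closed

section T
variable {k : ℕ}

/-- number of branches -/
def mm (β : Fin k → ℕ) : ℕ := (univ.filter (0 < β ·)).card

/-- the traceable states -/
def TT (c : ℕ) (β : Fin k → ℕ) : Prop := 0 < c + ∑ i, β i ∧ mm β ≤ c + 1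

lemma mm_eq (β : Fin k → ℕ) : mm β = (ms β).card := by
  unfold mm ms
  rw [Multiset.filter_map, Multiset.card_map]
  rfl

lemma mm_zero {β : Fin k → ℕ} (h : ∀ i, β i = 0) : mm β = 0 := by
  unfold mm
  rw [card_eq_zero, filter_eq_empty_iff]
  intro i _
  simp [h i]

lemma mm_pos {β : Fin k → ℕ} {i : Fin k} (h : 0 < β i) : 0 < mm β :=
  card_pos.2 ⟨i, by simp [h]⟩

lemma mm_up (β : Fin k → ℕ) (j : Fin k) (x : ℕ) : mm (Function.update β j x) ≤ mm β + 1 := by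
  unfold mm
  refine le_trans (card_le_card ?_) (card_insert_le j _)
  intro i hi
  rw [mem_filter] at hi
  rw [mem_insert]
  by_cases h : i = j
  · left; exact h
  · right
    rw [Function.update_of_ne h] at hi
    simpa using hi

lemma mm_up' (β : Fin k → ℕ) (j : Fin k) (x : ℕ) (h : 0 < β j ∨ x = 0) :
    mm (Function.update β j x) ≤ mm β := by
  unfold mm
  refine card_le_card ?_
  intro i hi
  rw [mem_filter] at hi ⊢
  refine ⟨mem_univ _, ?_⟩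
  by_cases hij : i = j
  · subst hij
    rw [Function.update_self] at hi
    omega
  · rw [Function.update_of_ne hij] at hi
    exact hi.2

lemma mm_noshare {β β1 β2 : Fin k → ℕ} (h : ∀ i, β i = β1 i + β2 i)
    (hs : ∀ i, ¬ (0 < β1 i ∧ 0 < β2 i)) : mm β1 + mm β2 ≤ mm β := by
  unfold mm
  rw [← card_union_of_disjoint]
  · apply card_le_card
    intro i hi
    rw [mem_union, mem_filter, mem_filter] at hi
    rw [mem_filter]
    have := h i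
    refine ⟨mem_univ _, ?_⟩
    rcases hi with hi | hi
    · have := hi.2
      omega
    · have := hi.2
      omega
  · rw [Finset.disjoint_left]
    intro i h1 h2
    rw [mem_filter] at h1 h2
    exact hs i ⟨h1.2, h2.2⟩

lemma sum_up (β : Fin k → ℕ) (j : Fin k) (x : ℕ) :
    ∑ i, Function.update β j x i + β j = ∑ i, β i + x := by
  rw [Finset.sum_update_of_mem (mem_univ j)]
  have h2 : ∑ x ∈ ({j} : Finset (Fin k)), β x = β j := by simp
  have h3 : β j ≤ ∑ i, β i := Finset.single_le_sum (fun _ _ => Nat.zero_le _) (mem_univ j)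
  have h4 : ∑ i ∈ univ \ {j}, β i + ∑ i ∈ {j}, β i = ∑ i, β i :=
    Finset.sum_sdiff (Finset.subset_univ {j})
  rw [h2] at h4
  omega

lemma TT_aux {c : ℕ} {β : Fin k → ℕ} (h : mm β ≤ c + 1) : ∀ a, a ≤ c + ∑ i, β i →
    ∃ c1 c2, ∃ β1 β2 : Fin k → ℕ, c1 + c2 = c ∧ (∀ i, β i = β1 i + β2 i) ∧ c1 + ∑ i, β1 i = a ∧
      mm β1 ≤ c1 + 1 ∧ mm β2 ≤ c2 + 1 ∧ mm β1 + mm β2 ≤ mm β + 1 := by
  intro a
  induction a with
  | zero =>
    intro _
    refine ⟨0, c, fun _ => 0, β, by omega, by simp, by simp, ?_, h, ?_⟩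
    · rw [mm_zero (fun _ => rfl)]; omega
    · rw [mm_zero (fun _ => rfl)]; omega
  | succ a ih =>
    intro ha
    obtain ⟨c1, c2, β1, β2, h1, h2, h3, h4, h5, h6⟩ := ih (by omega)
    have hsum : ∑ i, β i = ∑ i, β1 i + ∑ i, β2 i := by
      rw [← Finset.sum_add_distrib]
      exact Finset.sum_congr rfl (fun i _ => h2 i)
    have move : ∀ j, 0 < β2 j → ∑ i, Function.update β1 j (β1 j + 1) i = ∑ i, β1 i + 1 ∧
        ∀ i, β i = Function.update β1 j (β1 j + 1) i + Function.update β2 j (β2 j - 1) i := by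
      intro j hj
      constructor
      · have := sum_up β1 j (β1 j + 1)
        omega
      · intro i
        by_cases hij : i = j
        · subst hij
          rw [Function.update_self, Function.update_self, h2 i]
          omega
        · rw [Function.update_of_ne hij, Function.update_of_ne hij, h2 i]
    by_cases hsh : ∃ j, 0 < β1 j ∧ 0 < β2 j
    · obtain ⟨j, hj1, hj2⟩ := hsh
      obtain ⟨m1, m2⟩ := move j hj2
      have m3 := mm_up' β1 j (β1 j + 1) (Or.inl hj1)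
      have m4 := mm_up' β2 j (β2 j - 1) (Or.inl hj2)
      exact ⟨c1, c2, _, _, h1, m2, by omega, by omega, by omega, by omega⟩
    · push Not at hsh
      have hns := mm_noshare h2 (fun i hi => by have := hsh i hi.1; omega)
      by_cases hA : (∃ j, 0 < β2 j) ∧ mm β1 ≤ c1
      · obtain ⟨⟨j, hj⟩, hA⟩ := hA
        obtain ⟨m1, m2⟩ := move j hj
        have m3 := mm_up β1 j (β1 j + 1)
        have m4 := mm_up' β2 j (β2 j - 1) (Or.inl hj)
        exact ⟨c1, c2, _, _, h1, m2, by omega, by omega, by omega, by omega⟩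
      · have hB : 0 < c2 ∧ mm β2 ≤ c2 := by
          by_cases hj : ∃ j, 0 < β2 j
          · have hA' : ¬ mm β1 ≤ c1 := fun h => hA ⟨hj, h⟩
            obtain ⟨j, hj⟩ := hj
            have := mm_pos hj
            omega
          · push Not at hj
            have h0 : ∀ i, β2 i = 0 := fun i => Nat.le_zero.1 (hj i)
            have h7 := mm_zero h0
            have h8 : ∑ i, β2 i = 0 := Finset.sum_eq_zero (fun i _ => h0 i)
            omega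
        exact ⟨c1 + 1, c2 - 1, β1, β2, by omega, h2, by omega, by omega, by omega, by omega⟩

end T

/-! ### The certificate -/

/-- The states reached (non traceable ones), with splittings. -/
def Cert : List ((ℕ × List ℕ) × List (ℕ × List ℕ)) :=
  [
   ((3, [1, 1, 1, 2, 2, 3, 4, 6]), [(0, [0, 0, 1, 0, 0, 0, 0, 0]), (0, [0, 0, 0, 2, 0, 0, 0, 0]),
     (0, [0, 0, 0, 0, 0, 3, 0, 0]), (0, [0, 0, 0, 0, 0, 0, 4, 0]), (1, [1, 1, 0, 2, 0, 0, 0, 0]),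
     (0, [0, 0, 0, 0, 0, 0, 0, 6]), (1, [1, 0, 0, 2, 0, 3, 0, 0]), (1, [1, 0, 0, 0, 2, 0, 4, 0]),
     (1, [0, 0, 1, 0, 0, 3, 4, 0]), (1, [0, 1, 0, 2, 0, 0, 0, 6]), (2, [1, 0, 1, 2, 2, 3, 0,
     0])]),
   ((3, [1, 1, 2, 2, 3, 4, 6]), [(0, [0, 0, 1, 0, 0, 0, 0]), (0, [0, 0, 0, 0, 2, 0, 0]), (0, [0,
     0, 0, 0, 0, 3, 0]), (1, [1, 0, 0, 2, 0, 0, 0]), (0, [0, 0, 0, 0, 0, 0, 5]), (1, [0, 0, 0, 2,
     3, 0, 0]), (1, [0, 1, 0, 2, 0, 3, 0]), (1, [0, 0, 2, 0, 1, 4, 0]), (1, [0, 0, 0, 2, 0, 0,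
     6]), (2, [0, 1, 2, 2, 3, 0, 0]), (1, [0, 0, 0, 0, 0, 4, 6])]),
   ((3, [1, 1, 1, 2, 3, 4, 6]), [(0, [0, 0, 0, 0, 1, 0, 0]), (0, [0, 0, 0, 0, 0, 2, 0]), (1, [1,
     1, 0, 0, 0, 0, 0]), (0, [0, 0, 0, 0, 0, 0, 4]), (1, [0, 1, 0, 0, 3, 0, 0]), (1, [0, 0, 1, 0,
     0, 4, 0]), (1, [0, 1, 0, 0, 3, 2, 0]), (1, [0, 1, 0, 0, 0, 0, 6]), (2, [1, 0, 1, 2, 3, 0,
     0]), (1, [0, 1, 0, 0, 0, 2, 6])]),
   ((3, [1, 1, 1, 2, 2, 4, 6]), [(0, [0, 0, 0, 0, 0, 1, 0]), (0, [0, 0, 0, 0, 2, 0, 0]), (0, [0,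
     0, 0, 0, 0, 0, 3]), (1, [1, 0, 0, 0, 2, 0, 0]), (1, [0, 0, 1, 0, 2, 1, 0]), (1, [1, 0, 0, 0,
     0, 4, 0]), (1, [0, 1, 0, 0, 2, 0, 3]), (2, [1, 1, 0, 2, 2, 0, 0]), (1, [1, 0, 0, 0, 0, 4,
     3]), (1, [1, 0, 0, 2, 0, 0, 6])]),
   ((3, [1, 1, 1, 2, 2, 3, 6]), [(0, [1, 0, 0, 0, 0, 0, 0]), (0, [0, 0, 0, 0, 0, 0, 2]), (0, [0,
     0, 0, 0, 0, 3, 0]), (1, [0, 1, 0, 2, 0, 0, 0]), (1, [0, 1, 0, 0, 2, 1, 0]), (1, [0, 0, 0, 0,
     2, 3, 0]), (1, [0, 0, 1, 0, 2, 3, 0]), (1, [0, 1, 0, 2, 0, 0, 4]), (2, [0, 1, 1, 0, 2, 3,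
     0])]),
   ((3, [1, 1, 1, 2, 4, 6]), [(0, [0, 0, 0, 0, 1, 0]), (1, [1, 0, 0, 0, 0, 0]), (1, [0, 0, 1, 0,
     1, 0]), (1, [1, 0, 0, 0, 2, 0]), (1, [1, 0, 0, 0, 3, 0]), (2, [0, 1, 1, 2, 0, 0]), (1, [0,
     0, 1, 0, 2, 3]), (2, [0, 1, 1, 2, 2, 0]), (2, [1, 1, 0, 2, 0, 3])]),
   ((3, [1, 1, 2, 2, 3, 6]), [(0, [0, 0, 0, 1, 0, 0]), (0, [0, 0, 0, 0, 2, 0]), (1, [0, 1, 1, 0,
     0, 0]), (1, [0, 0, 0, 2, 1, 0]), (1, [1, 1, 2, 0, 0, 0]), (1, [0, 0, 0, 2, 3, 0]), (1, [1,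
     0, 2, 0, 3, 0]), (1, [0, 1, 0, 0, 0, 6]), (1, [0, 0, 2, 0, 0, 6])]),
   ((3, [1, 1, 1, 2, 2, 3, 4]), [(0, [0, 0, 1, 0, 0, 0, 0]), (0, [0, 0, 0, 2, 0, 0, 0]), (1, [1,
     0, 1, 0, 0, 0, 0]), (1, [1, 0, 0, 2, 0, 0, 0]), (1, [1, 1, 0, 2, 0, 0, 0]), (1, [1, 0, 0, 0,
     0, 0, 4]), (1, [0, 1, 0, 2, 0, 3, 0]), (1, [1, 0, 0, 0, 2, 0, 4])]),
   ((3, [1, 1, 1, 2, 3, 6]), [(0, [0, 0, 0, 0, 1, 0]), (1, [0, 0, 1, 0, 0, 0]), (1, [0, 1, 0, 0,
     1, 0]), (1, [1, 0, 0, 0, 2, 0]), (1, [1, 0, 0, 2, 1, 0]), (1, [0, 1, 0, 0, 0, 4]), (2, [1,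
     1, 0, 0, 3, 0]), (1, [1, 0, 0, 0, 0, 6])]),
   ((3, [1, 1, 1, 2, 2, 6]), [(0, [1, 0, 0, 0, 0, 0]), (1, [0, 1, 0, 0, 0, 0]), (1, [0, 0, 0, 2,
     0, 0]), (1, [0, 1, 0, 0, 2, 0]), (1, [0, 1, 1, 0, 2, 0]), (2, [0, 1, 1, 0, 2, 0]), (1, [0,
     0, 1, 2, 0, 3]), (2, [0, 1, 1, 0, 2, 2])]),
   ((3, [1, 1, 2, 2, 3, 4]), [(0, [0, 0, 1, 0, 0, 0]), (1, [0, 1, 0, 0, 0, 0]), (1, [0, 0, 2, 0,
     0, 0]), (1, [1, 0, 2, 0, 0, 0]), (1, [1, 0, 0, 1, 0, 2]), (1, [1, 0, 0, 0, 0, 4]), (1, [0,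
     1, 2, 0, 0, 3]), (1, [0, 0, 0, 0, 3, 4])]),
   ((3, [1, 1, 1, 2, 3, 4]), [(0, [1, 0, 0, 0, 0, 0]), (1, [0, 1, 0, 0, 0, 0]), (1, [1, 1, 0, 0,
     0, 0]), (1, [1, 0, 0, 0, 0, 2]), (1, [0, 1, 1, 0, 0, 2]), (1, [0, 0, 1, 0, 0, 4]), (2, [0,
     1, 1, 0, 3, 0])]),
   ((3, [1, 1, 2, 2, 6]), [(0, [0, 1, 0, 0, 0]), (0, [0, 0, 0, 2, 0]), (1, [0, 0, 0, 2, 0]), (1,
     [0, 0, 0, 0, 3]), (2, [1, 1, 0, 1, 0]), (2, [1, 1, 0, 2, 0]), (2, [1, 0, 2, 2, 0])]),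
   ((3, [1, 1, 2, 3, 4]), [(0, [0, 1, 0, 0, 0]), (0, [0, 0, 2, 0, 0]), (1, [0, 0, 0, 0, 2]), (1,
     [0, 1, 0, 0, 2]), (1, [1, 1, 0, 2, 0]), (2, [0, 1, 2, 1, 0]), (2, [1, 0, 0, 0, 4])]),
   ((2, [1, 2, 3, 4, 6]), [(0, [1, 0, 0, 0, 0]), (0, [0, 0, 2, 0, 0]), (0, [0, 0, 0, 3, 0]), (0,
     [0, 0, 0, 0, 4]), (0, [0, 0, 0, 0, 5]), (1, [0, 2, 3, 0, 0]), (1, [1, 2, 3, 0, 0]), (1, [1,
     2, 0, 4, 0]), (1, [0, 2, 0, 0, 6])]),
   ((2, [2, 3, 4, 6]), [(0, [1, 0, 0, 0]), (0, [2, 0, 0, 0]), (0, [0, 3, 0, 0]), (0, [0, 0, 4,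
     0]), (1, [1, 3, 0, 0]), (0, [0, 0, 0, 6]), (1, [0, 2, 4, 0]), (1, [2, 0, 0, 5])]),
   ((2, [1, 1, 2, 4, 6]), [(0, [0, 0, 0, 1, 0]), (0, [0, 0, 0, 2, 0]), (0, [0, 0, 0, 3, 0]), (1,
     [1, 0, 2, 0, 0]), (1, [1, 1, 2, 0, 0]), (1, [1, 0, 0, 4, 0]), (1, [0, 1, 2, 0, 3]), (1, [1,
     0, 2, 4, 0])]),
   ((2, [1, 3, 4, 6]), [(0, [1, 0, 0, 0]), (0, [0, 0, 0, 2]), (0, [0, 3, 0, 0]), (1, [1, 2, 0,
     0]), (1, [1, 3, 0, 0]), (1, [0, 1, 4, 0]), (1, [1, 3, 2, 0]), (1, [1, 0, 0, 6])]),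
   ((2, [1, 1, 2, 3, 6]), [(0, [0, 0, 0, 1, 0]), (0, [0, 0, 0, 0, 2]), (0, [0, 0, 0, 3, 0]), (0,
     [0, 0, 0, 0, 4]), (1, [0, 1, 0, 3, 0]), (0, [0, 0, 0, 0, 6]), (1, [0, 1, 2, 3, 0])]),
   ((2, [1, 1, 2, 2, 6]), [(0, [0, 0, 1, 0, 0]), (0, [0, 0, 0, 2, 0]), (0, [0, 0, 0, 0, 3]), (1,
     [0, 1, 0, 2, 0]), (1, [1, 1, 2, 0, 0]), (0, [0, 0, 0, 0, 6]), (1, [0, 1, 0, 2, 3])]),
   ((2, [1, 2, 2, 3, 4]), [(0, [0, 0, 1, 0, 0]), (0, [0, 2, 0, 0, 0]), (0, [0, 0, 0, 0, 3]), (0,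
     [0, 0, 0, 0, 4]), (1, [1, 1, 2, 0, 0]), (1, [0, 2, 0, 3, 0]), (1, [0, 0, 2, 3, 1])]),
   ((2, [1, 3, 4, 4]), [(0, [1, 0, 0, 0]), (0, [0, 0, 0, 2]), (0, [0, 3, 0, 0]), (0, [0, 0, 0,
     4]), (1, [1, 2, 0, 1]), (1, [1, 0, 0, 4]), (1, [1, 0, 2, 3])]),
   ((2, [1, 1, 1, 2, 6]), [(0, [0, 0, 1, 0, 0]), (0, [0, 0, 0, 0, 2]), (1, [0, 1, 1, 0, 0]), (1,
     [0, 0, 1, 2, 0]), (1, [1, 1, 0, 0, 2]), (0, [0, 0, 0, 0, 6])]),
   ((2, [1, 1, 2, 3, 4]), [(0, [0, 1, 0, 0, 0]), (0, [0, 0, 0, 2, 0]), (0, [0, 0, 0, 3, 0]), (1,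
     [1, 0, 2, 0, 0]), (1, [0, 1, 2, 1, 0]), (1, [1, 0, 0, 0, 4])]),
   ((2, [1, 1, 2, 6]), [(0, [1, 0, 0, 0]), (0, [0, 0, 2, 0]), (0, [0, 0, 0, 3]), (1, [1, 0, 2,
     0]), (0, [0, 0, 0, 5]), (0, [0, 0, 0, 6])]),
   ((2, [1, 2, 3, 4]), [(0, [1, 0, 0, 0]), (0, [0, 2, 0, 0]), (1, [1, 1, 0, 0]), (1, [0, 0, 3,
     0]), (1, [1, 0, 2, 1]), (1, [1, 0, 0, 4])]),
   ((2, [1, 1, 1, 2, 4]), [(0, [0, 0, 1, 0, 0]), (0, [0, 0, 0, 2, 0]), (1, [1, 1, 0, 0, 0]), (0,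
     [0, 0, 0, 0, 4]), (1, [1, 0, 1, 2, 0])]),
   ((2, [1, 1, 2, 2, 3]), [(0, [0, 1, 0, 0, 0]), (0, [0, 0, 0, 2, 0]), (0, [0, 0, 0, 0, 3]), (1,
     [0, 1, 2, 0, 0]), (1, [1, 1, 0, 2, 0])]),
   ((2, [1, 1, 2, 4]), [(0, [0, 1, 0, 0]), (0, [0, 0, 2, 0]), (1, [1, 0, 1, 0]), (0, [0, 0, 0,
     4]), (1, [0, 1, 1, 2])]),
   ((2, [1, 2, 2, 3]), [(0, [1, 0, 0, 0]), (0, [0, 0, 0, 2]), (0, [0, 0, 0, 3]), (1, [1, 2, 0,
     0]), (1, [1, 0, 1, 2])]),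
   ((2, [1, 1, 1, 4]), [(0, [0, 0, 1, 0]), (1, [1, 0, 0, 0]), (1, [1, 0, 1, 0]), (0, [0, 0, 0,
     4])]),
   ((2, [1, 1, 2, 3]), [(0, [0, 1, 0, 0]), (0, [0, 0, 0, 2]), (1, [1, 1, 0, 0]), (1, [1, 0, 0,
     2])]),
   ((2, [1, 1, 2, 2]), [(0, [1, 0, 0, 0]), (0, [0, 0, 2, 0]), (1, [1, 0, 0, 1]), (1, [0, 1, 0,
     2])]),
   ((2, [1, 1, 1, 2]), [(0, [0, 0, 1, 0]), (0, [0, 0, 0, 2]), (1, [1, 0, 1, 0])]),
   ((1, [1, 4, 6]), [(0, [1, 0, 0]), (0, [0, 2, 0]), (0, [0, 3, 0]), (0, [0, 0, 4]), (0, [0, 0,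
     5]), (0, [0, 0, 6])]),
   ((1, [1, 2, 6]), [(0, [1, 0, 0]), (0, [0, 0, 2]), (0, [0, 0, 3]), (1, [1, 2, 0]), (1, [1, 2,
     1])]),
   ((1, [1, 1, 6]), [(0, [0, 1, 0]), (0, [0, 0, 2]), (1, [1, 1, 0]), (0, [0, 0, 4])]),
   ((1, [1, 3, 4]), [(0, [1, 0, 0]), (0, [0, 0, 2]), (0, [0, 3, 0]), (0, [0, 0, 4])]),
   ((1, [1, 2, 4]), [(0, [1, 0, 0]), (0, [0, 2, 0]), (0, [0, 0, 3]), (1, [1, 2, 0])]),
   ((1, [1, 1, 4]), [(0, [1, 0, 0]), (0, [0, 0, 2]), (1, [1, 1, 0])]),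
   ((1, [1, 2, 3]), [(0, [1, 0, 0]), (0, [0, 2, 0]), (0, [0, 0, 3])]),
   ((1, [1, 1, 2]), [(0, [0, 1, 0]), (0, [0, 0, 2])])
  ]

def subL : List ℕ → List ℕ → List ℕ
  | x :: l, t :: r => (x - t) :: subL l r
  | _, _ => []

def leL : List ℕ → List ℕ → Bool
  | [], [] => true
  | x :: l, t :: r => Nat.ble t x && leL l r
  | _, _ => false

def goodB (c : ℕ) (l : List ℕ) : Bool :=
  (Nat.ble (l.filter (fun x => Nat.ble 1 x)).length (c + 1) && Nat.ble 1 (c + l.sum)) ||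
    Cert.any fun e => Nat.beq e.1.1 c && Nat.beq e.1.2.sum l.sum &&
      (l.filter (fun x => Nat.ble 1 x)).isPerm e.1.2

def rowB (c : ℕ) (l : List ℕ) (r : ℕ × List ℕ) (a : ℕ) : Bool :=
  Nat.beq (r.1 + r.2.sum) a && Nat.ble r.1 c && leL l r.2 && goodB r.1 r.2 &&
    goodB (c - r.1) (subL l r.2)

def rowsB (c : ℕ) (l : List ℕ) : List (ℕ × List ℕ) → ℕ → Bool
  | [], a => !Nat.ble (2 * a) (c + l.sum)
  | r :: rs, a => rowB c l r a && rowsB c l rs (a + 1)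

def certB : Bool :=
  Cert.all fun e => Nat.ble 1 e.1.1 && e.1.2.all (fun x => Nat.ble 1 x) && rowsB e.1.1 e.1.2 e.2 1

set_option maxRecDepth 100000 in
lemma certB_true : certB = true := by decide +kernel

lemma rowsB_spec {c : ℕ} {l : List ℕ} {rs : List (ℕ × List ℕ)} : ∀ {a0 : ℕ},
    rowsB c l rs a0 = true → ∀ a, a0 ≤ a → 2 * a ≤ c + l.sum → ∃ r, rowB c l r a = true := by
  induction rs with
  | nil =>
    intro a0 h a h1 h2
    exfalso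
    unfold rowsB at h
    rw [Bool.not_eq_true', ← Bool.not_eq_true, Nat.ble_eq] at h
    omega
  | cons r rs ih =>
    intro a0 h a h1 h2
    unfold rowsB at h
    rw [Bool.and_eq_true] at h
    rcases Nat.eq_or_lt_of_le h1 with rfl | h3
    · exact ⟨r, h.1⟩
    · exact ih h.2 a h3 h2

lemma filt_coe (l : List ℕ) : (↑l : Multiset ℕ).filter (0 < ·) =
    ↑(l.filter (fun x => Nat.ble 1 x)) := by
  rw [Multiset.filter_coe]
  congr 1
  apply List.filter_congr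
  intro x _
  rw [Bool.eq_iff_iff, Nat.ble_eq, decide_eq_true_iff]
  omega

lemma leL_spec : ∀ {l t : List ℕ}, leL l t = true → ∃ P : List (ℕ × ℕ),
    P.map (fun p => p.1 + p.2) = l ∧ P.map Prod.fst = t ∧ P.map Prod.snd = subL l t := by
  intro l
  induction l with
  | nil =>
    intro t h
    cases t with
    | nil => exact ⟨[], rfl, rfl, rfl⟩
    | cons _ _ => exact absurd h (by simp [leL])
  | cons x l ih =>
    intro t h
    cases t with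
    | nil => exact absurd h (by simp [leL])
    | cons y t =>
      unfold leL at h
      rw [Bool.and_eq_true, Nat.ble_eq] at h
      obtain ⟨P, h1, h2, h3⟩ := ih h.2
      refine ⟨(y, x - y) :: P, ?_, ?_, ?_⟩
      · rw [List.map_cons, h1]
        congr 1
        show y + (x - y) = x
        omega
      · rw [List.map_cons, h2]
      · rw [List.map_cons, h3]; rfl

/-- The certified states. -/
def CC {k : ℕ} (c : ℕ) (β : Fin k → ℕ) : Prop :=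
  TT c β ∨ ∃ e ∈ Cert, c = e.1.1 ∧ ms β = ↑e.1.2

lemma goodB_spec {k c : ℕ} {l : List ℕ} (h : goodB c l = true) {β : Fin k → ℕ}
    (hβ : ms β = (↑l : Multiset ℕ).filter (0 < ·)) : CC c β := by
  unfold goodB at h
  rw [Bool.or_eq_true] at h
  rcases h with h | h
  · left
    rw [Bool.and_eq_true, Nat.ble_eq, Nat.ble_eq] at h
    constructor
    · rw [← ms_sum, hβ, filt_sum, Multiset.sum_coe]
      exact h.2
    · rw [mm_eq, hβ, filt_coe, Multiset.coe_card]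
      exact h.1
  · right
    rw [List.any_eq_true] at h
    obtain ⟨e, he, h⟩ := h
    simp only [Bool.and_eq_true, Nat.beq_eq] at h
    refine ⟨e, he, h.1.1.symm, ?_⟩
    rw [hβ, filt_coe]
    exact Multiset.coe_eq_coe.2 (List.isPerm_iff.1 h.2)

lemma cert_spec {e : (ℕ × List ℕ) × List (ℕ × List ℕ)} (he : e ∈ Cert) :
    1 ≤ e.1.1 ∧ ∀ a, 1 ≤ a → 2 * a ≤ e.1.1 + e.1.2.sum → ∃ r, rowB e.1.1 e.1.2 r a = true := by
  have h := certB_true
  unfold certB at h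
  rw [List.all_eq_true] at h
  have h2 := h e he
  simp only [Bool.and_eq_true, Nat.ble_eq] at h2
  exact ⟨h2.1.1, fun a h3 h4 => rowsB_spec h2.2 a h3 h4⟩

lemma CC_split {k c : ℕ} {β : Fin k → ℕ} (h : CC c β) {a : ℕ} (h1 : 1 ≤ a)
    (h2 : a < c + ∑ i, β i) :
    ∃ c1 c2, ∃ β1 β2 : Fin k → ℕ, c1 + c2 = c ∧ (∀ i, β i = β1 i + β2 i) ∧
      c1 + ∑ i, β1 i = a ∧ CC c1 β1 ∧ CC c2 β2 := by
  rcases h with h | ⟨e, he, rfl, hβ⟩
  · obtain ⟨c1, c2, β1, β2, g1, g2, g3, g4, g5, _⟩ := TT_aux h.2 a h2.le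
    have hsum : ∑ i, β i = ∑ i, β1 i + ∑ i, β2 i := by
      rw [← Finset.sum_add_distrib]
      exact Finset.sum_congr rfl (fun i _ => g2 i)
    exact ⟨c1, c2, β1, β2, g1, g2, g3, Or.inl ⟨by omega, g4⟩, Or.inl ⟨by omega, g5⟩⟩
  · have hsum : ∑ i, β i = e.1.2.sum := by
      rw [← ms_sum, hβ, Multiset.sum_coe]
    have key : ∀ a, 1 ≤ a → 2 * a ≤ e.1.1 + ∑ i, β i →
        ∃ c1 c2, ∃ β1 β2 : Fin k → ℕ, c1 + c2 = e.1.1 ∧ (∀ i, β i = β1 i + β2 i) ∧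
          c1 + ∑ i, β1 i = a ∧ CC c1 β1 ∧ CC c2 β2 := by
      intro a h1 h2
      rw [hsum] at h2
      obtain ⟨r, hr⟩ := (cert_spec he).2 a h1 h2
      unfold rowB at hr
      simp only [Bool.and_eq_true, Nat.beq_eq, Nat.ble_eq] at hr
      obtain ⟨⟨⟨⟨r1, r2⟩, r3⟩, r4⟩, r5⟩ := hr
      obtain ⟨P, p1, p2, p3⟩ := leL_spec r3
      obtain ⟨β1, β2, g1, _, g3, g4⟩ := ms_pairs β univ (↑P)
        (by
          have : ms β = Multiset.map (fun p => p.1 + p.2) (↑P : Multiset (ℕ × ℕ)) := by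
            rw [hβ, Multiset.map_coe, p1]
          exact this)
      rw [Multiset.map_coe, p2] at g3
      rw [Multiset.map_coe, p3] at g4
      refine ⟨r.1, e.1.1 - r.1, β1, β2, by omega, fun i => g1 i (mem_univ _), ?_,
        goodB_spec r4 g3, goodB_spec r5 g4⟩
      have g5 : ∑ i, β1 i = r.2.sum := by
        rw [← ms_sum]
        show (((univ : Finset (Fin k)).val.map β1).filter (0 < ·)).sum = _
        rw [g3, filt_sum, Multiset.sum_coe]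
      omega
    by_cases ha : 2 * a ≤ e.1.1 + ∑ i, β i
    · exact key a h1 ha
    · obtain ⟨c1, c2, β1, β2, g1, g2, g3, g4, g5⟩ := key (e.1.1 + ∑ i, β i - a) (by omega)
        (by omega)
      have hs2 : ∑ i, β i = ∑ i, β1 i + ∑ i, β2 i := by
        rw [← Finset.sum_add_distrib]
        exact Finset.sum_congr rfl (fun i _ => g2 i)
      exact ⟨c2, c1, β2, β1, by omega, fun i => by rw [g2 i, add_comm], by omega, g5, g4⟩

lemma CC_conn {k c : ℕ} {β : Fin k → ℕ} (h : CC c β) : 0 < c ∨ (0 < ∑ i, β i ∧ mm β ≤ 1) := by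
  rcases h with h | ⟨e, he, rfl, _⟩
  · have h1 := h.1
    have h2 := h.2
    omega
  · left
    exact (cert_spec he).1

section graph
variable {V : Type} [DecidableEq V] {k : ℕ} {f : V → Option (Fin k)} {G : SimpleGraph V}

lemma RP_CC (hG : ∀ x y, G.Adj x y ↔ x ≠ y ∧ (f x = none ∨ f y = none ∨ f x = f y))
    {A : Finset V} (hA : CC (cc f A) (bb f A)) : RP G A := by
  refine RP_of_closed G (fun A => CC (cc f A) (bb f A)) ?_ ?_ _ A rfl hA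
  · intro A hA
    have hcard := card_eq f A
    rcases CC_conn hA with h | ⟨h, h'⟩
    · apply conn_of hG _ (Or.inl h)
      apply card_pos.1
      omega
    · by_cases h0 : 0 < cc f A
      · apply conn_of hG _ (Or.inl h0)
        apply card_pos.1
        omega
      · have hne : A.Nonempty := card_pos.1 (by omega)
        refine conn_of hG hne (Or.inr ?_)
        have hnone : ∀ v ∈ A, f v ≠ none := by
          intro v hv hv2
          apply h0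
          unfold cc
          exact card_pos.2 ⟨v, mem_filter.2 ⟨hv, hv2⟩⟩
        obtain ⟨v0, hv0⟩ := hne
        obtain ⟨i, hi⟩ := Option.ne_none_iff_exists'.1 (hnone v0 hv0)
        refine ⟨i, fun v hv => ?_⟩
        obtain ⟨j, hj⟩ := Option.ne_none_iff_exists'.1 (hnone v hv)
        unfold mm at h'
        rw [card_le_one] at h'
        have e1 : 0 < bb f A i := by
          unfold bb
          exact card_pos.2 ⟨v0, mem_filter.2 ⟨hv0, hi⟩⟩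
        have e2 : 0 < bb f A j := by
          unfold bb
          exact card_pos.2 ⟨v, mem_filter.2 ⟨hv, hj⟩⟩
        have := h' i (by simp [e1]) j (by simp [e2])
        rw [hj, this]
  · intro A hA a ha1 ha2
    have hcard := card_eq f A
    rw [hcard] at ha2
    obtain ⟨c1, c2, β1, β2, g1, g2, g3, g4, g5⟩ := CC_split hA ha1 ha2
    obtain ⟨B, hB, hBc, hBb⟩ := exists_sub (f := f) A c1 β1 (by omega)
      (fun i => by rw [g2 i]; exact Nat.le_add_right _ _)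
    have hcB := card_eq f B
    refine ⟨B, hB, ?_, ?_, ?_⟩
    · rw [hcB, hBc, hBb]; exact g3
    · show CC (cc f B) (bb f B)
      rw [hBc, hBb]; exact g4
    · have e1 : cc f (A \ B) = c2 := by
        have := cc_sdiff (f := f) hB
        omega
      have e2 : bb f (A \ B) = β2 := by
        funext i
        have := bb_sdiff (f := f) hB i
        rw [hBb] at this
        have := g2 i
        omega
      show CC (cc f (A \ B)) (bb f (A \ B))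
      rw [e1, e2]; exact g5

end graph

/-! ### The counts of the semistar -/

lemma cc_univ (b0 : ℕ) {k : ℕ} (b : Fin k → ℕ) :
    cc lab (univ : Finset (Fin b0 ⊕ (Σ i : Fin k, Fin (b i)))) = b0 := by
  unfold cc
  have h : (univ : Finset (Fin b0 ⊕ (Σ i : Fin k, Fin (b i)))).filter (lab · = none) =
      (univ : Finset (Fin b0)).map ⟨Sum.inl, Sum.inl_injective⟩ := by
    ext v
    rw [mem_filter, mem_map]
    constructor
    · rintro ⟨_, h⟩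
      rcases v with v | v
      · exact ⟨v, mem_univ _, rfl⟩
      · exact absurd h (by simp [lab])
    · rintro ⟨w, _, rfl⟩
      exact ⟨mem_univ _, rfl⟩
  rw [h, card_map, card_univ, Fintype.card_fin]

lemma bb_univ (b0 : ℕ) {k : ℕ} (b : Fin k → ℕ) :
    bb lab (univ : Finset (Fin b0 ⊕ (Σ i : Fin k, Fin (b i)))) = b := by
  funext i
  unfold bb
  have h : (univ : Finset (Fin b0 ⊕ (Σ i : Fin k, Fin (b i)))).filter (lab · = some i) =
      (univ : Finset (Fin (b i))).map ⟨fun q => Sum.inr ⟨i, q⟩, by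
        intro q q' h
        simpa using h⟩ := by
    ext v
    rw [mem_filter, mem_map]
    constructor
    · rintro ⟨_, h⟩
      rcases v with v | ⟨j, q⟩
      · exact absurd h (by simp [lab])
      · have : j = i := Option.some.inj h
        subst this
        exact ⟨q, mem_univ _, rfl⟩
    · rintro ⟨w, _, rfl⟩
      exact ⟨mem_univ _, rfl⟩
  rw [h, card_map, card_univ, Fintype.card_fin]

/-- A `(3,8)` RP semistar is one of the 24 survivors. -/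
theorem semistar_surv {b : Fin 8 → ℕ} (hb : ∀ i, 0 < b i)
    (h : RP (semistar 3 b) univ) : Surv (ms b) := by
  have hax := ax_graph (f := lab) (G := semistar 3 b) (fun x y => Iff.rfl)
  refine K3 hax _ _ rfl ⟨univ, h, cc_univ 3 b, by rw [bb_univ]⟩ ?_
  rw [← mm_eq]
  unfold mm
  rw [filter_true_of_mem (fun i _ => hb i), card_univ, Fintype.card_fin]

theorem semistar_ex : RP (semistar 3 ![1, 1, 1, 2, 2, 3, 4, 6]) univ := by
  refine RP_CC (f := lab) (fun x y => Iff.rfl) ?_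
  rw [cc_univ, bb_univ]
  right
  refine ⟨_, List.mem_cons_self, rfl, ?_⟩
  decide

end Pool.Agent.V132.SS
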